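import Pool.Agent.H983R4.LH.P4

set_option autoImplicit false
open MeasureTheory Filter Topology Set Real

namespace Pool.Agent.H983R4.GL

open Pool.Agent.H983R4.LH

/-- the dominating function -/
noncomputable def BdF (A B a t θ : ℝ) : ℝ :=
  A + B * (Real.log (3 / 2 + |t| + 2 * a) - Real.log (Real.sin (θ / 2)))

lemma BdF_integrable (A B a t : ℝ) : IntervalIntegrable (BdF A B a t) volume 0 (2 * π) := by
  have h1 : IntervalIntegrable (fun θ : ℝ => Real.log (Real.sin (θ / 2))) volume 0 (2 * π) := by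
    have h := (intervalIntegrable_log_sin (a := 0) (b := π)).comp_mul_left (c := (1 / 2 : ℝ))
    have e1 : (0:ℝ) / (1 / 2) = 0 := by norm_num
    have e2 : π / (1 / 2) = 2 * π := by ring
    rw [e1, e2] at h
    refine h.congr ?_
    intro x _
    simp only [Function.comp]
    rw [show 1 / 2 * x = x / 2 by ring]
  unfold BdF
  exact (intervalIntegrable_const).add ((intervalIntegrable_const.sub h1).const_mul B)

variable {F : ℂ → ℂ} {A B : ℝ}

lemma domF (hB : 0 ≤ B) (hF : ∀ s : ℂ, 1 / 2 ≤ s.re → log⁺ ‖F s‖ ≤ A + B * Real.log (‖s‖ + 1))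
    {a t ρ θ : ℝ} (ha : 0 < a) (h4 : 1 / 4 ≤ ρ) (h1 : ρ < 1) (hs : Real.sin (θ / 2) ≠ 0) :
    log⁺ ‖F (P a t (circleMap 0 ρ θ))‖ ≤ BdF A B a t θ := by
  have hρ : 0 < ρ := by linarith
  have hw : ‖circleMap 0 ρ θ‖ < 1 := by
    rw [norm_circleMap_zero, abs_of_pos hρ]; exact h1
  refine (hF _ (re_P ha hw)).trans ?_
  unfold BdF
  have hs0 : 0 < |Real.sin (θ / 2)| := abs_pos.2 hs
  have hs1 : |Real.sin (θ / 2)| ≤ 1 := Real.abs_sin_le_one _
  have h2 : ‖P a t (circleMap 0 ρ θ)‖ ≤ 1 / 2 + |t| + a * (2 / |Real.sin (θ / 2)|) := by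
    unfold P
    refine (norm_add_le _ _).trans (add_le_add ((norm_add_le _ _).trans (add_le_add ?_ ?_)) ?_)
    · simp
    · rw [norm_mul, Complex.norm_I, mul_one, Complex.norm_real, Real.norm_eq_abs]
    · rw [norm_mul, Complex.norm_real, Real.norm_eq_abs, abs_of_pos ha, norm_div]
      refine mul_le_mul_of_nonneg_left ?_ ha.le
      have h3 := norm_one_sub (θ := θ) h4
      have h5 : ‖1 + circleMap 0 ρ θ‖ ≤ 2 := by
        refine (norm_add_le _ _).trans ?_
        rw [norm_one]; linarith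
      exact div_le_div₀ (by norm_num) h5 hs0 h3
  have h3 : ‖P a t (circleMap 0 ρ θ)‖ + 1 ≤ (3 / 2 + |t| + 2 * a) / |Real.sin (θ / 2)| := by
    rw [le_div_iff₀ hs0]
    have h5 : (‖P a t (circleMap 0 ρ θ)‖ + 1) * |Real.sin (θ / 2)| ≤
        (1 / 2 + |t| + a * (2 / |Real.sin (θ / 2)|) + 1) * |Real.sin (θ / 2)| :=
      mul_le_mul_of_nonneg_right (by linarith) hs0.le
    have h6 : (1 / 2 + |t| + a * (2 / |Real.sin (θ / 2)|) + 1) * |Real.sin (θ / 2)| =
        (3 / 2 + |t|) * |Real.sin (θ / 2)| + 2 * a := by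
      field_simp
      ring
    have h7 : (3 / 2 + |t|) * |Real.sin (θ / 2)| ≤ (3 / 2 + |t|) * 1 :=
      mul_le_mul_of_nonneg_left hs1 (by positivity)
    linarith
  have h5 : Real.log (‖P a t (circleMap 0 ρ θ)‖ + 1) ≤
      Real.log (3 / 2 + |t| + 2 * a) - Real.log (Real.sin (θ / 2)) := by
    have h6 := Real.log_le_log (by positivity) h3
    rwa [Real.log_div (by positivity) hs0.ne', Real.log_abs] at h6
  have := mul_le_mul_of_nonneg_left h5 hB
  linarith

/-- **Poisson-Jensen inequality in the half plane.** -/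
theorem poissonF (hd : Differentiable ℂ F) (hB : 0 ≤ B)
    (hF : ∀ s : ℂ, 1 / 2 ≤ s.re → log⁺ ‖F s‖ ≤ A + B * Real.log (‖s‖ + 1))
    {a : ℝ} (ha : 0 < a) (t : ℝ) :
    log⁺ ‖F (1 / 2 + a + t * Complex.I)‖ ≤
      (2 * π)⁻¹ * ∫ θ in (0:ℝ)..2 * π, log⁺ ‖F (1 / 2 + ((t + a * ct θ : ℝ) : ℂ) * Complex.I)‖ := by
  have hpi := Real.pi_pos
  have hlim : Tendsto (fun ρ : ℝ => ∫ θ in (0:ℝ)..2 * π, log⁺ ‖F (P a t (circleMap 0 ρ θ))‖)
      (𝓝[<] 1) (𝓝 (∫ θ in (0:ℝ)..2 * π, log⁺ ‖F (1 / 2 + ((t + a * ct θ : ℝ) : ℂ) * Complex.I)‖)) := by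
    have hev : ∀ᶠ ρ : ℝ in 𝓝[<] (1:ℝ), 1 / 4 ≤ ρ ∧ ρ < 1 := by
      have h1 : ∀ᶠ ρ : ℝ in 𝓝[<] (1:ℝ), 1 / 4 < ρ :=
        nhdsWithin_le_nhds (Ioi_mem_nhds (by norm_num))
      filter_upwards [h1, self_mem_nhdsWithin] with ρ h2 h3
      exact ⟨h2.le, h3⟩
    have hae : ∀ᵐ θ : ℝ ∂volume, θ ∈ Set.uIoc 0 (2 * π) → 0 < θ ∧ θ < 2 * π := by
      have : ∀ᵐ θ : ℝ ∂volume, θ ≠ 2 * π := by
        simp [ae_iff, measure_singleton]
      filter_upwards [this] with θ h1 h2
      rw [Set.uIoc_of_le (by positivity)] at h2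
      exact ⟨h2.1, lt_of_le_of_ne h2.2 h1⟩
    refine intervalIntegral.tendsto_integral_filter_of_dominated_convergence (BdF A B a t) ?_ ?_
      (BdF_integrable A B a t) ?_
    · filter_upwards [hev] with ρ ⟨h4, h1⟩
      have hρ : 0 < ρ := by linarith
      have hc : Continuous fun θ : ℝ => log⁺ ‖F (P a t (circleMap 0 ρ θ))‖ := by
        refine continuous_posLog.comp (continuous_norm.comp (hd.continuous.comp ?_))
        rw [continuous_iff_continuousAt]
        intro θ
        have hw : ‖circleMap 0 ρ θ‖ < 1 := by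
          rw [norm_circleMap_zero, abs_of_pos hρ]; exact h1
        have c1 : ContinuousAt (fun θ : ℝ => circleMap 0 ρ θ) θ := (continuous_circleMap 0 ρ).continuousAt
        have c2 : ContinuousAt (P a t) (circleMap 0 ρ θ) :=
          (P_differentiableAt a t (one_sub_ne hw)).continuousAt
        exact ContinuousAt.comp (f := fun θ : ℝ => circleMap 0 ρ θ) c2 c1
      exact hc.aestronglyMeasurable
    · filter_upwards [hev] with ρ ⟨h4, h1⟩
      filter_upwards [hae] with θ h2 h3
      obtain ⟨h5, h6⟩ := h2 h3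
      rw [Real.norm_eq_abs, abs_of_nonneg posLog_nonneg]
      exact domF hB hF ha h4 h1 (sin_half_pos h5 h6).ne'
    · filter_upwards [hae] with θ h2 h3
      obtain ⟨h5, h6⟩ := h2 h3
      have hs := sin_half_pos h5 h6
      rw [← P_circle a t h5 h6]
      have hne : 1 - circleMap 0 1 θ ≠ 0 := by
        have h7 := norm_one_sub (ρ := 1) (θ := θ) (by norm_num)
        intro h
        rw [h, norm_zero] at h7
        exact hs.ne' (abs_eq_zero.1 (le_antisymm h7 (abs_nonneg _)))
      have c1 : Tendsto (fun ρ : ℝ => circleMap 0 ρ θ) (𝓝[<] 1) (𝓝 (circleMap 0 1 θ)) := by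
        have : Continuous fun ρ : ℝ => circleMap 0 ρ θ := by
          unfold circleMap; fun_prop
        exact (this.tendsto 1).mono_left nhdsWithin_le_nhds
      have c2 : ContinuousAt (P a t) (circleMap 0 1 θ) := (P_differentiableAt a t hne).continuousAt
      have c3 : ContinuousAt F (P a t (circleMap 0 1 θ)) := hd.continuous.continuousAt
      have c4 : Tendsto (fun ρ : ℝ => F (P a t (circleMap 0 ρ θ))) (𝓝[<] 1)
          (𝓝 (F (P a t (circleMap 0 1 θ)))) := c3.tendsto.comp (c2.tendsto.comp c1)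
      exact (continuous_posLog.tendsto _).comp c4.norm
  have hge : ∀ᶠ ρ : ℝ in 𝓝[<] (1:ℝ), 2 * π * log⁺ ‖F (1 / 2 + a + t * Complex.I)‖ ≤
      ∫ θ in (0:ℝ)..2 * π, log⁺ ‖F (P a t (circleMap 0 ρ θ))‖ := by
    have h1 : ∀ᶠ ρ : ℝ in 𝓝[<] (1:ℝ), 1 / 4 < ρ :=
      nhdsWithin_le_nhds (Ioi_mem_nhds (by norm_num))
    filter_upwards [h1, self_mem_nhdsWithin] with ρ h2 h3
    have hρ : 0 < ρ := by linarith
    have h3' : ρ < 1 := h3
    have h5 : AnalyticOnNhd ℂ (fun w => F (P a t w)) (Metric.closedBall 0 ρ) := by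
      intro w hw
      have hw' : ‖w‖ < 1 := by
        rw [Metric.mem_closedBall, dist_zero_right] at hw
        linarith
      have c2 := P_differentiableAt a t (one_sub_ne hw')
      have c3 : AnalyticAt ℂ F (P a t w) := hd.analyticAt _
      exact c3.comp c2
    have h6 := posLog_submean hρ h5
    rw [P_zero, circleAverage_def, smul_eq_mul] at h6
    rw [← div_eq_inv_mul, le_div_iff₀ (by positivity)] at h6
    linarith
  have h2 := ge_of_tendsto hlim hge
  rw [← div_eq_inv_mul, le_div_iff₀ (by positivity)]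
  linarith

/-- the exceptional set -/
def ExF (F : ℂ → ℂ) (κ T h : ℝ) : Set ℝ :=
  {x : ℝ | |x - T| ≤ h ∧ Real.exp κ < ‖F (1 / 2 + x * Complex.I)‖}

/-- local data at a height `T`: growth and reflection; `ℓ` is the logarithm of the conductor -/
structure LD (F : ℂ → ℂ) (T ℓ C m K : ℝ) : Prop where
  hd : Differentiable ℂ F
  hℓ : 0 ≤ ℓ
  hC : 0 ≤ C
  hm : 0 ≤ m
  hK : 0 ≤ K
  g : ∀ s : ℂ, 1 / 2 ≤ s.re → log⁺ ‖F s‖ ≤ C + ℓ + m * Real.log (1 + |s.im - T|)
  r : ∀ σ t : ℝ, 0 ≤ σ → σ ≤ 1 / 2 → |t - T| ≤ 1 →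
    log⁺ ‖F (1 / 2 - σ + t * Complex.I)‖ ≤ K + σ * (ℓ + m * Real.log 2) +
      log⁺ ‖F (1 / 2 + σ + t * Complex.I)‖

/-- crude bound -/
noncomputable def MF (ℓ C m : ℝ) : ℝ := C + ℓ + m * Real.log 2

variable {T ℓ C m K : ℝ}

lemma LD.M_nonneg (H : LD F T ℓ C m K) : 0 ≤ MF ℓ C m := by
  unfold MF
  have := H.hℓ
  have := H.hC
  have := H.hm
  positivity

lemma LD.growth (H : LD F T ℓ C m K) : ∀ s : ℂ, 1 / 2 ≤ s.re →
    log⁺ ‖F s‖ ≤ (C + ℓ + m * Real.log (1 + |T|)) + m * Real.log (‖s‖ + 1) := by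
  intro s hs
  refine (H.g s hs).trans ?_
  have h1 : 1 + |s.im - T| ≤ (1 + |T|) * (‖s‖ + 1) := by
    have h2 := abs_sub s.im T
    have h3 := Complex.abs_im_le_norm s
    have := norm_nonneg s
    have := abs_nonneg T
    nlinarith
  have h2 := Real.log_le_log (by positivity) h1
  rw [Real.log_mul (by positivity) (by positivity)] at h2
  have := mul_le_mul_of_nonneg_left h2 H.hm
  linarith

lemma pointwiseF (H : LD F T ℓ C m K) {κ h r a t x : ℝ} (hκ : 0 ≤ κ) (h0 : 0 < h) (h1 : h ≤ 1)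
    (hr : r ≤ h / 2) (ha : 0 < a) (har : a ≤ r) (ht : |t - T| ≤ r) {θ : ℝ}
    (hx : x = t + a * ct θ) :
    log⁺ ‖F (1 / 2 + (x : ℂ) * Complex.I)‖ ≤
      κ + (ExF F κ T h).indicator (fun _ : ℝ => MF ℓ C m) x +
        (MF ℓ C m / Real.log (1 + h / (2 * r)) + m) * ps θ := by
  have hr0 : 0 < r := lt_of_lt_of_le ha har
  have hM := H.M_nonneg
  have hm := H.hm
  have hΛ : 0 < Real.log (1 + h / (2 * r)) := Real.log_pos (by
    have : 0 < h / (2 * r) := by positivity
    linarith)
  have hp := ps_nonneg θ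
  have hc : 0 ≤ (MF ℓ C m / Real.log (1 + h / (2 * r)) + m) * ps θ := by positivity
  have hg : log⁺ ‖F (1 / 2 + (x : ℂ) * Complex.I)‖ ≤
      C + ℓ + m * Real.log (1 + |x - T|) := by
    have := H.g (1 / 2 + (x : ℂ) * Complex.I) (by simp)
    simpa using this
  by_cases hxT : |x - T| ≤ h
  · by_cases hE : x ∈ ExF F κ T h
    · rw [indicator_of_mem hE]
      have h3 : Real.log (1 + |x - T|) ≤ Real.log 2 :=
        Real.log_le_log (by positivity) (by linarith)
      have h4 := mul_le_mul_of_nonneg_left h3 hm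
      unfold MF at *
      linarith
    · rw [indicator_of_notMem hE]
      have h2 : ‖F (1 / 2 + x * Complex.I)‖ ≤ Real.exp κ := by
        by_contra hcon
        push Not at hcon
        exact hE ⟨hxT, hcon⟩
      have h4 := posLog_le_posLog (norm_nonneg _) h2
      have h5 : log⁺ (Real.exp κ) = κ := by
        rw [posLog_eq_log, Real.log_exp]
        rw [abs_of_pos (Real.exp_pos _)]
        exact Real.one_le_exp hκ
      linarith
  · push Not at hxT
    have hnE : x ∉ ExF F κ T h := fun hcon => absurd hcon.1 (not_le.2 hxT)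
    rw [indicator_of_notMem hnE]
    have h3 : |x - T| ≤ |t - T| + a * |ct θ| := by
      have : x - T = (t - T) + a * ct θ := by rw [hx]; ring
      rw [this]
      refine (abs_add_le _ _).trans ?_
      rw [abs_mul, abs_of_pos ha]
    have h2 : h / 2 < a * |ct θ| := by
      linarith
    have h3' : h / (2 * r) ≤ |ct θ| := by
      rw [div_le_iff₀ (by positivity)]
      have : a * |ct θ| ≤ r * |ct θ| := mul_le_mul_of_nonneg_right har (abs_nonneg _)
      linarith
    have h4 : Real.log (1 + h / (2 * r)) ≤ ps θ := by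
      unfold ps
      exact Real.log_le_log (by positivity) (by linarith)
    have h6 : 1 + |x - T| ≤ 2 * (1 + |ct θ|) := by
      have : a * |ct θ| ≤ 1 * |ct θ| := mul_le_mul_of_nonneg_right (by linarith) (abs_nonneg _)
      have := abs_nonneg (ct θ)
      linarith
    have h7 : Real.log (1 + |x - T|) ≤ Real.log 2 + ps θ := by
      have h8 := Real.log_le_log (by positivity) h6
      rwa [Real.log_mul (by positivity) (by positivity)] at h8
    have h9 : MF ℓ C m ≤ MF ℓ C m / Real.log (1 + h / (2 * r)) * ps θ := by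
      rw [div_mul_eq_mul_div, le_div_iff₀ hΛ]
      exact mul_le_mul_of_nonneg_left h4 hM
    have h10 := mul_le_mul_of_nonneg_left h7 hm
    unfold MF at *
    nlinarith

/-- bound inside the half plane -/
lemma innerF (H : LD F T ℓ C m K) {κ h r a t v : ℝ} (hκ : 0 ≤ κ) (h0 : 0 < h) (h1 : h ≤ 1)
    (hr : r ≤ h / 2) (ha : 0 < a) (har : a ≤ r) (ht : |t - T| ≤ r) (hv : 0 ≤ v)
    (hE : volume (ExF F κ T h) ≤ ENNReal.ofReal v) :
    log⁺ ‖F (1 / 2 + a + t * Complex.I)‖ ≤
      κ + MF ℓ C m * v / (π * a) +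
        (MF ℓ C m / Real.log (1 + h / (2 * r)) + m) * C0 / (2 * π) := by
  have hpi := Real.pi_pos
  have hM := H.M_nonneg
  refine (poissonF H.hd H.hm H.growth ha t).trans ?_
  rw [← div_eq_inv_mul, div_le_iff₀ (by positivity)]
  rw [intervalIntegral.integral_of_le (by positivity)]
  set V : Set ℝ := {θ : ℝ | (0 < θ ∧ θ < 2 * π) ∧ t + a * ct θ ∈ ExF F κ T h} with hV
  set W := toMeasurable volume V with hW
  have hWm : MeasurableSet W := measurableSet_toMeasurable _ _
  have hWv : volume W ≤ ENNReal.ofReal (2 / a * v) := by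
    rw [hW, measure_toMeasurable]
    refine (vol_pre ha t _).trans ?_
    rw [ENNReal.ofReal_mul (by positivity)]
    exact mul_le_mul_right hE _
  set A' := MF ℓ C m / Real.log (1 + h / (2 * r)) + m with hA
  have hg1 : Integrable (fun _ : ℝ => κ) (volume.restrict (Set.Ioc 0 (2 * π))) :=
    integrable_const _
  have hWv' : (volume.restrict (Set.Ioc 0 (2 * π))) W ≤ ENNReal.ofReal (2 / a * v) :=
    (Measure.restrict_apply_le _ _).trans hWv
  have hg2 : Integrable (W.indicator (fun _ : ℝ => MF ℓ C m)) (volume.restrict (Set.Ioc 0 (2 * π))) :=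
    (integrable_const _).indicator hWm
  have hg3 : Integrable (fun θ => A' * ps θ) (volume.restrict (Set.Ioc 0 (2 * π))) :=
    ps_integrable.const_mul A'
  have hle : ∫ θ in Set.Ioc 0 (2 * π), log⁺ ‖F (1 / 2 + ((t + a * ct θ : ℝ) : ℂ) * Complex.I)‖ ≤
      ∫ θ in Set.Ioc 0 (2 * π), (κ + W.indicator (fun _ : ℝ => MF ℓ C m) θ + A' * ps θ) := by
    refine integral_mono_of_nonneg (Eventually.of_forall fun θ => posLog_nonneg)
      ((hg1.add hg2).add hg3) ?_
    filter_upwards [ae_mem] with θ hθ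
    have h2 := pointwiseF (θ := θ) H hκ h0 h1 hr ha har ht rfl
    refine h2.trans ?_
    have h3 : (ExF F κ T h).indicator (fun _ : ℝ => MF ℓ C m) (t + a * ct θ) ≤
        W.indicator (fun _ : ℝ => MF ℓ C m) θ := by
      by_cases h4 : t + a * ct θ ∈ ExF F κ T h
      · have h5 : θ ∈ V := ⟨hθ, h4⟩
        rw [indicator_of_mem h4, indicator_of_mem (subset_toMeasurable volume V h5)]
      · rw [indicator_of_notMem h4]
        exact indicator_nonneg (fun _ _ => hM) θ
    show κ + (ExF F κ T h).indicator (fun _ : ℝ => MF ℓ C m) (t + a * ct θ) + A' * ps θ ≤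
      κ + W.indicator (fun _ : ℝ => MF ℓ C m) θ + A' * ps θ
    linarith
  refine hle.trans ?_
  have e1 : ∫ θ in Set.Ioc 0 (2 * π), (κ + W.indicator (fun _ : ℝ => MF ℓ C m) θ + A' * ps θ) =
      2 * π * κ + (∫ θ in Set.Ioc 0 (2 * π), W.indicator (fun _ : ℝ => MF ℓ C m) θ) +
        A' * C0 := by
    have e4 := integral_add (f := fun θ => κ + W.indicator (fun _ : ℝ => MF ℓ C m) θ)
      (g := fun θ => A' * ps θ) (hg1.add hg2) hg3
    have e5 := integral_add (f := fun _ : ℝ => κ)
      (g := fun θ => W.indicator (fun _ : ℝ => MF ℓ C m) θ) hg1 hg2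
    have e6 : (volume.restrict (Set.Ioc 0 (2 * π))).real Set.univ = 2 * π := by
      simp [Measure.real, Real.volume_Ioc, hpi.le]
    have e7 : ∫ θ in Set.Ioc 0 (2 * π), A' * ps θ = A' * C0 := by
      unfold C0
      exact integral_const_mul A' ps
    have e8 : ∫ _ in Set.Ioc 0 (2 * π), κ = 2 * π * κ := by
      rw [integral_const, e6, smul_eq_mul]
    rw [e4, e5, e7, e8]
  have e2 : ∫ θ in Set.Ioc 0 (2 * π), W.indicator (fun _ : ℝ => MF ℓ C m) θ ≤
      2 / a * v * MF ℓ C m := by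
    rw [integral_indicator hWm, integral_const, smul_eq_mul]
    refine mul_le_mul_of_nonneg_right ?_ hM
    rw [Measure.real, Measure.restrict_apply_univ]
    exact ENNReal.toReal_le_of_le_ofReal (by positivity) hWv'
  rw [e1]
  have e3 : (κ + MF ℓ C m * v / (π * a) + A' * C0 / (2 * π)) * (2 * π) =
      2 * π * κ + 2 / a * v * MF ℓ C m + A' * C0 := by
    field_simp
  rw [e3]
  linarith

/-- **the local inequality** -/
lemma local_boundF (H : LD F T ℓ C m K) {κ h r v d : ℝ} (hκ : 0 ≤ κ) (h0 : 0 < h) (h1 : h ≤ 1)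
    (hr0 : 0 < r) (hr : r ≤ h / 2) (hv : 0 ≤ v) (hd0 : 0 < d) (hd1 : d < 1)
    (hE : volume (ExF F κ T h) ≤ ENNReal.ofReal v) :
    log⁺ ‖F (1 / 2 + T * Complex.I)‖ ≤ K + m * C0 / (2 * π) + r * (ℓ + m * Real.log 2) + κ +
      MF ℓ C m * (v / (π * (r * d)) + C0 / (2 * π * Real.log (1 + h / (2 * r))) +
        C1 / (2 * π * Real.log (1 / d))) := by
  have hpi := Real.pi_pos
  have hM := H.M_nonneg
  have hm := H.hm
  have hℓ := H.hℓ
  have hK := H.hK
  have hℓ2 : 0 ≤ ℓ + m * Real.log 2 := by positivity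
  have hΛ : 0 < Real.log (1 + h / (2 * r)) := Real.log_pos (by
    have : 0 < h / (2 * r) := by positivity
    linarith)
  have hD : 0 < Real.log (1 / d) := Real.log_pos (by rw [lt_div_iff₀ hd0]; linarith)
  have han : AnalyticOnNhd ℂ F (Metric.closedBall (1 / 2 + T * Complex.I) r) :=
    fun s _ => H.hd.analyticAt s
  have hsub := posLog_submean hr0 han
  rw [circleAverage_def, smul_eq_mul, ← div_eq_inv_mul, le_div_iff₀ (by positivity),
    intervalIntegral.integral_of_le (by positivity)] at hsub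
  set B : ℝ := K + r * (ℓ + m * Real.log 2) + (κ + MF ℓ C m * v / (π * (r * d)) +
    (MF ℓ C m / Real.log (1 + h / (2 * r)) + m) * C0 / (2 * π)) with hB
  have hC0 := C0_nonneg
  have hpt : ∀ θ : ℝ, Real.cos θ ≠ 0 →
      log⁺ ‖F (circleMap (1 / 2 + T * Complex.I) r θ)‖ ≤
      B + MF ℓ C m / Real.log (1 / d) * lc θ := by
    intro θ hcz
    set σ : ℝ := r * |Real.cos θ| with hσ
    set t : ℝ := T + r * Real.sin θ with ht
    have hσ0 : 0 ≤ σ := by positivity
    have hcos := Real.abs_cos_le_one θ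
    have hσr : σ ≤ r := by
      rw [hσ]; nlinarith
    have hsin := Real.abs_sin_le_one θ
    have htT : |t - T| ≤ r := by
      rw [ht, add_sub_cancel_left, abs_mul, abs_of_pos hr0]
      nlinarith
    have htT' := abs_le.1 htT
    -- the right point
    set s : ℂ := 1 / 2 + σ + t * Complex.I with hs
    have hstep : log⁺ ‖F (circleMap (1 / 2 + T * Complex.I) r θ)‖ ≤
        K + r * (ℓ + m * Real.log 2) + log⁺ ‖F s‖ := by
      have hcm : circleMap (1 / 2 + T * Complex.I) r θ =
          1 / 2 + ((r * Real.cos θ : ℝ) : ℂ) + t * Complex.I := by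
        rw [circleMap, Complex.exp_mul_I, ht]
        push_cast
        ring
      have hlog : σ * (ℓ + m * Real.log 2) ≤ r * (ℓ + m * Real.log 2) :=
        mul_le_mul_of_nonneg_right hσr hℓ2
      rcases le_total 0 (Real.cos θ) with hc | hc
      · have : circleMap (1 / 2 + T * Complex.I) r θ = s := by
          rw [hcm, hs, hσ, abs_of_nonneg hc]
        rw [this]
        have : 0 ≤ r * (ℓ + m * Real.log 2) := by positivity
        linarith
      · have : circleMap (1 / 2 + T * Complex.I) r θ = 1 / 2 - σ + t * Complex.I := by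
          rw [hcm, hσ, abs_of_nonpos hc]
          push_cast
          ring
        rw [this]
        have := H.r σ t hσ0 (by linarith) (by linarith)
        linarith
    have hsre : s.re = 1 / 2 + σ := by simp [hs]
    have hsim : s.im = t := by simp [hs]
    have hlc := lc_nonneg θ
    have hpos : 0 < |Real.cos θ| := abs_pos.2 hcz
    by_cases hcd : |Real.cos θ| < d
    · -- near the line
      have h2 : Real.log (1 / d) ≤ lc θ := by
        unfold lc
        rw [← Real.log_abs (Real.cos θ), one_div, Real.log_inv]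
        have := Real.log_le_log hpos hcd.le
        linarith
      have h3 : MF ℓ C m ≤ MF ℓ C m / Real.log (1 / d) * lc θ := by
        rw [div_mul_eq_mul_div, le_div_iff₀ hD]
        exact mul_le_mul_of_nonneg_left h2 hM
      have h4 : log⁺ ‖F s‖ ≤ MF ℓ C m := by
        refine (H.g s (by rw [hsre]; linarith)).trans ?_
        unfold MF
        rw [hsim]
        have h7 : Real.log (1 + |t - T|) ≤ Real.log 2 :=
          Real.log_le_log (by positivity) (by linarith)
        have := mul_le_mul_of_nonneg_left h7 hm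
        linarith
      have h5 : 0 ≤ MF ℓ C m * v / (π * (r * d)) := by positivity
      have h6 : 0 ≤ (MF ℓ C m / Real.log (1 + h / (2 * r)) + m) * C0 / (2 * π) := by positivity
      rw [hB]
      linarith
    · push Not at hcd
      have hσd : r * d ≤ σ := by
        rw [hσ]
        exact mul_le_mul_of_nonneg_left hcd hr0.le
      have hσpos : 0 < σ := lt_of_lt_of_le (by positivity) hσd
      have h2 := innerF H hκ h0 h1 hr hσpos hσr htT hv hE
      have h3 : MF ℓ C m * v / (π * σ) ≤ MF ℓ C m * v / (π * (r * d)) := by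
        refine div_le_div_of_nonneg_left (by positivity) (by positivity) ?_
        exact mul_le_mul_of_nonneg_left hσd hpi.le
      have h4 : 0 ≤ MF ℓ C m / Real.log (1 / d) * lc θ := by positivity
      have h5 : log⁺ ‖F s‖ ≤ κ + MF ℓ C m * v / (π * σ) +
        (MF ℓ C m / Real.log (1 + h / (2 * r)) + m) * C0 / (2 * π) := h2
      rw [hB]
      linarith
  have hae : ∀ᵐ θ : ℝ ∂(volume.restrict (Set.Ioc 0 (2 * π))), Real.cos θ ≠ 0 := by
    refine ae_restrict_of_ae ?_
    have hcount : {θ : ℝ | Real.cos θ = 0}.Countable := by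
      have : {θ : ℝ | Real.cos θ = 0} ⊆ Set.range (fun k : ℤ => (2 * (k : ℝ) + 1) * π / 2) := by
        intro θ hθ
        obtain ⟨k, hk⟩ := Real.cos_eq_zero_iff.1 hθ
        exact ⟨k, hk.symm⟩
      exact (Set.countable_range _).mono this
    have h2 := hcount.measure_zero volume
    rw [ae_iff]
    simpa using h2
  have hint : Integrable (fun θ : ℝ => B + MF ℓ C m / Real.log (1 / d) * lc θ)
      (volume.restrict (Set.Ioc 0 (2 * π))) :=
    (integrable_const _).add (lc_integrable.const_mul _)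
  have hle : ∫ θ in Set.Ioc 0 (2 * π), log⁺ ‖F (circleMap (1 / 2 + T * Complex.I) r θ)‖ ≤
      ∫ θ in Set.Ioc 0 (2 * π), (B + MF ℓ C m / Real.log (1 / d) * lc θ) := by
    refine integral_mono_of_nonneg (Eventually.of_forall fun θ => posLog_nonneg) hint ?_
    filter_upwards [hae] with θ hθ
    exact hpt θ hθ
  have e1 : ∫ θ in Set.Ioc 0 (2 * π), (B + MF ℓ C m / Real.log (1 / d) * lc θ) =
      2 * π * B + MF ℓ C m / Real.log (1 / d) * C1 := by
    have e4 := integral_add (μ := volume.restrict (Set.Ioc 0 (2 * π))) (f := fun _ : ℝ => B)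
      (g := fun θ => MF ℓ C m / Real.log (1 / d) * lc θ) (integrable_const _)
      (lc_integrable.const_mul _)
    have e6 : (volume.restrict (Set.Ioc 0 (2 * π))).real Set.univ = 2 * π := by
      simp [Measure.real, Real.volume_Ioc, hpi.le]
    have e7 : ∫ θ in Set.Ioc 0 (2 * π), MF ℓ C m / Real.log (1 / d) * lc θ =
        MF ℓ C m / Real.log (1 / d) * C1 := by
      unfold C1
      exact integral_const_mul _ lc
    have e8 : ∫ _ in Set.Ioc 0 (2 * π), B = 2 * π * B := by
      rw [integral_const, e6, smul_eq_mul]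
    rw [e4, e7, e8]
  rw [e1] at hle
  have e2 : (K + m * C0 / (2 * π) + r * (ℓ + m * Real.log 2) + κ +
      MF ℓ C m * (v / (π * (r * d)) + C0 / (2 * π * Real.log (1 + h / (2 * r))) +
        C1 / (2 * π * Real.log (1 / d)))) * (2 * π) =
        2 * π * B + MF ℓ C m / Real.log (1 / d) * C1 := by
    rw [hB]
    have := hΛ.ne'
    have := hD.ne'
    field_simp
    ring
  have h9 : log⁺ ‖F (1 / 2 + T * Complex.I)‖ * (2 * π) ≤
    (K + m * C0 / (2 * π) + r * (ℓ + m * Real.log 2) + κ +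
      MF ℓ C m * (v / (π * (r * d)) + C0 / (2 * π * Real.log (1 + h / (2 * r))) +
        C1 / (2 * π * Real.log (1 / d)))) * (2 * π) := by
    rw [e2]
    exact hsub.trans hle
  exact le_of_mul_le_mul_right h9 (by positivity)

end Pool.Agent.H983R4.GL
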