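import Pool.Agent.H983R4.GL.F1
import Pool.Agent.H855R2.SF.Base

set_option autoImplicit false
open MeasureTheory Filter Topology Set Real

namespace Pool.Agent.H983R4.GL

open Pool.Agent.H983R4.LH

/-- **large values persist**: numerical form -/
theorem persist {C m K κ μ : ℝ} (hC : 0 ≤ C) (hm : 0 ≤ m) (hK : 0 ≤ K) (hκ : 0 < κ) (hκμ : κ < μ) :
    ∃ δ : ℝ, 0 < δ ∧ ∃ ℓ₀ : ℝ, 0 < ℓ₀ ∧ ∀ (F : ℂ → ℂ) (T ℓ : ℝ), LD F T ℓ C m K → ℓ₀ ≤ ℓ →
      Real.exp (μ * ℓ) ≤ ‖F (1 / 2 + T * Complex.I)‖ → ∀ h : ℝ, 0 < h → h ≤ 1 →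
        ENNReal.ofReal (δ * h) < volume (ExF F (κ * ℓ) T h) := by
  have hpi := Real.pi_pos
  have hC0 := C0_nonneg
  have hC1 := C1_nonneg
  have hl2 : 0 < Real.log 2 := Real.log_pos (by norm_num)
  set q := μ - κ with hq
  have hq0 : 0 < q := by rw [hq]; linarith
  set X : ℝ := 24 * C0 / (2 * π * q) with hX
  set Y : ℝ := 24 * C1 / (2 * π * q) with hY
  have hX0 : 0 ≤ X := by positivity
  have hY0 : 0 ≤ Y := by positivity
  set r₀ : ℝ := min (1 / 2) (min (q / 16) (Real.exp (-X) / 2)) with hr₀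
  have hr₀pos : 0 < r₀ := by
    rw [hr₀]
    refine lt_min (by norm_num) (lt_min (by positivity) (by positivity))
  have hr1 : r₀ ≤ 1 / 2 := min_le_left _ _
  have hr2 : r₀ ≤ q / 16 := (min_le_right _ _).trans (min_le_left _ _)
  have hr3 : r₀ ≤ Real.exp (-X) / 2 := (min_le_right _ _).trans (min_le_right _ _)
  set d : ℝ := Real.exp (-(Y + 1)) with hd
  have hd0 : 0 < d := Real.exp_pos _
  have hd1 : d < 1 := by
    rw [hd, Real.exp_lt_one_iff]
    linarith
  have hlogd : Real.log (1 / d) = Y + 1 := by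
    rw [one_div, Real.log_inv, hd, Real.log_exp]; ring
  have hΛ : X ≤ Real.log (1 + 1 / (2 * r₀)) := by
    rw [Real.le_log_iff_exp_le (by positivity)]
    have h1 : Real.exp X ≤ 1 / (2 * r₀) := by
      rw [le_div_iff₀ (by positivity)]
      have h2 : 2 * r₀ ≤ Real.exp (-X) := by linarith
      calc Real.exp X * (2 * r₀) ≤ Real.exp X * Real.exp (-X) :=
            mul_le_mul_of_nonneg_left h2 (Real.exp_pos _).le
        _ = 1 := by rw [← Real.exp_add]; simp
    linarith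
  have hΛ0 : 0 < Real.log (1 + 1 / (2 * r₀)) := Real.log_pos (by
    have : 0 < 1 / (2 * r₀) := by positivity
    linarith)
  set δ : ℝ := q * π * r₀ * d / 24 with hδ
  have hδ0 : 0 < δ := by positivity
  set ℓ₀ : ℝ := max 1 (max (C + m * Real.log 2) (8 * (K + m * C0 / (2 * π)) / q)) with hℓ₀
  have hℓ1 : 1 ≤ ℓ₀ := le_max_left _ _
  refine ⟨δ, hδ0, ℓ₀, by linarith, ?_⟩
  intro F T ℓ H hℓ hz h h0 h1
  have hℓ2 : 1 ≤ ℓ := hℓ1.trans hℓ
  have hℓ3 : C + m * Real.log 2 ≤ ℓ := ((le_max_left _ _).trans (le_max_right _ _)).trans hℓ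
  have hℓ4 : 8 * (K + m * C0 / (2 * π)) / q ≤ ℓ :=
    ((le_max_right _ _).trans (le_max_right _ _)).trans hℓ
  by_contra hcon
  push Not at hcon
  have hb := local_boundF H (κ := κ * ℓ) (h := h) (r := r₀ * h) (v := δ * h) (d := d)
    (by positivity) h0 h1 (by positivity)
    (by have := mul_le_mul_of_nonneg_right hr1 h0.le; linarith) (by positivity) hd0 hd1 hcon
  have e1 : h / (2 * (r₀ * h)) = 1 / (2 * r₀) := by
    field_simp
  have e2 : δ * h / (π * (r₀ * h * d)) = q / 24 := by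
    rw [hδ]; field_simp
  rw [e1, e2, hlogd] at hb
  have b1 : C0 / (2 * π * Real.log (1 + 1 / (2 * r₀))) ≤ q / 24 := by
    rw [div_le_div_iff₀ (by positivity) (by norm_num)]
    have h2 : 24 * C0 = X * (2 * π * q) := by rw [hX]; field_simp
    have h3 : X * (2 * π * q) ≤ Real.log (1 + 1 / (2 * r₀)) * (2 * π * q) :=
      mul_le_mul_of_nonneg_right hΛ (by positivity)
    calc C0 * 24 = 24 * C0 := by ring
      _ = X * (2 * π * q) := h2
      _ ≤ Real.log (1 + 1 / (2 * r₀)) * (2 * π * q) := h3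
      _ = q * (2 * π * Real.log (1 + 1 / (2 * r₀))) := by ring
  have b2 : C1 / (2 * π * (Y + 1)) ≤ q / 24 := by
    rw [div_le_div_iff₀ (by positivity) (by norm_num)]
    have h2 : 24 * C1 = Y * (2 * π * q) := by rw [hY]; field_simp
    have h3 : Y * (2 * π * q) ≤ (Y + 1) * (2 * π * q) :=
      mul_le_mul_of_nonneg_right (by linarith) (by positivity)
    calc C1 * 24 = 24 * C1 := by ring
      _ = Y * (2 * π * q) := h2
      _ ≤ (Y + 1) * (2 * π * q) := h3
      _ = q * (2 * π * (Y + 1)) := by ring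
  have hM := H.M_nonneg
  have b3 : MF ℓ C m * (q / 24 + C0 / (2 * π * Real.log (1 + 1 / (2 * r₀))) +
      C1 / (2 * π * (Y + 1))) ≤ MF ℓ C m * (q / 8) :=
    mul_le_mul_of_nonneg_left (by linarith) hM
  have b4 : MF ℓ C m ≤ 2 * ℓ := by unfold MF; linarith
  have b5 : r₀ * h * (ℓ + m * Real.log 2) ≤ q / 8 * ℓ := by
    have h2 : ℓ + m * Real.log 2 ≤ 2 * ℓ := by linarith
    have h4 : r₀ * h ≤ q / 16 := (mul_le_of_le_one_right hr₀pos.le h1).trans hr2
    have h5 : 0 ≤ r₀ * h := by positivity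
    calc r₀ * h * (ℓ + m * Real.log 2) ≤ r₀ * h * (2 * ℓ) := mul_le_mul_of_nonneg_left h2 h5
      _ ≤ q / 16 * (2 * ℓ) := mul_le_mul_of_nonneg_right h4 (by positivity)
      _ = q / 8 * ℓ := by ring
  have b6 : K + m * C0 / (2 * π) ≤ q / 8 * ℓ := by
    rw [div_le_iff₀ hq0] at hℓ4
    linarith
  have b7 : MF ℓ C m * (q / 8) ≤ 2 * ℓ * (q / 8) := mul_le_mul_of_nonneg_right b4 (by positivity)
  have b8 : μ * ℓ ≤ log⁺ ‖F (1 / 2 + T * Complex.I)‖ := by
    have h2 := Real.log_le_log (Real.exp_pos _) hz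
    rw [Real.log_exp] at h2
    exact h2.trans (le_max_right _ _)
  have b9 : μ * ℓ = κ * ℓ + q * ℓ := by rw [hq]; ring
  have b10 : 0 < q * ℓ := mul_pos hq0 (by linarith)
  linarith

open H855R2.SF

variable {ι : Type*} {m : ℝ} {L : ι → ℂ → ℂ} {Q : ι → ℝ → ℝ}

/-- crude bound, uniform in the family -/
theorem crude (H : AFam m L Q) : ∃ C : ℝ, 1 ≤ C ∧ ∀ i (s : ℂ), -1 / 4 ≤ s.re →
    ‖L i s‖ ≤ C * Q i s.im := by
  obtain ⟨B, hB⟩ := H.right (1 / 4) (by norm_num)
  obtain ⟨C, hC, hr⟩ := H.refl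
  obtain ⟨D, hD, hpl⟩ := pl H (a := -1 / 4) (b := 5 / 4) (ea := 1) (eb := 1 / 4) (Ca := C * |B|)
    (Cb := |B|) (by norm_num) (by norm_num) (by norm_num) (by norm_num) (by norm_num)
    (by positivity) (by positivity)
  have hBn : ∀ i (s : ℂ), 1 + 1 / 4 ≤ s.re → ‖L i s‖ ≤ |B| * Q i s.im ^ (1 / 4 : ℝ) := by
    intro i s hs
    refine (hB i s hs).trans ?_
    exact mul_le_mul_of_nonneg_right (le_abs_self B) (Real.rpow_nonneg (by linarith [H.Q1 i s.im]) _)
  refine ⟨max 1 (max D |B|), le_max_left _ _, fun i s hs => ?_⟩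
  have hQ := H.Q1 i s.im
  have hm1 : D ≤ max 1 (max D |B|) := (le_max_left _ _).trans (le_max_right _ _)
  have hm2 : |B| ≤ max 1 (max D |B|) := (le_max_right _ _).trans (le_max_right _ _)
  by_cases h5 : s.re ≤ 5 / 4
  · have h1 := hpl i (by
      intro t
      have e1 := hr i (3 / 4) t (by norm_num) le_rfl
      have e2 := hBn i ⟨1 / 2 + 3 / 4, t⟩ (by norm_num)
      have hQt := H.Q1 i t
      have e0 : (⟨1 / 2 - 3 / 4, t⟩ : ℂ) = ⟨((-1 / 4 : ℝ)), t⟩ := by
        apply Complex.ext <;> norm_num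
      rw [e0] at e1
      have e3 : (⟨1 / 2 + 3 / 4, t⟩ : ℂ).im = t := rfl
      rw [e3] at e2
      rw [Real.rpow_one]
      calc ‖L i ⟨-1 / 4, t⟩‖ ≤ C * Q i t ^ (3 / 4 : ℝ) * ‖L i ⟨1 / 2 + 3 / 4, t⟩‖ := e1
        _ ≤ C * Q i t ^ (3 / 4 : ℝ) * (|B| * Q i t ^ (1 / 4 : ℝ)) :=
            mul_le_mul_of_nonneg_left e2 (by positivity)
        _ = C * |B| * (Q i t ^ (3 / 4 : ℝ) * Q i t ^ (1 / 4 : ℝ)) := by ring
        _ = C * |B| * Q i t := by
            rw [← Real.rpow_add (by linarith)]; norm_num) (by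
      intro t
      exact hBn i ⟨5 / 4, t⟩ (by norm_num)) s hs h5
    refine h1.trans ?_
    have h2 : Q i s.im ^ ((1:ℝ) + (1 / 4 - 1) / (5 / 4 - -1 / 4) * (s.re - -1 / 4)) ≤ Q i s.im := by
      conv_rhs => rw [← Real.rpow_one (Q i s.im)]
      apply Real.rpow_le_rpow_of_exponent_le hQ
      linarith
    calc D * Q i s.im ^ ((1:ℝ) + (1 / 4 - 1) / (5 / 4 - -1 / 4) * (s.re - -1 / 4)) ≤ D * Q i s.im :=
          mul_le_mul_of_nonneg_left h2 hD
      _ ≤ _ := mul_le_mul_of_nonneg_right hm1 (by linarith)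
  · push Not at h5
    have h1 := hBn i s (by linarith)
    have h2 : Q i s.im ^ (1 / 4 : ℝ) ≤ Q i s.im := by
      conv_rhs => rw [← Real.rpow_one (Q i s.im)]
      apply Real.rpow_le_rpow_of_exponent_le hQ
      norm_num
    calc ‖L i s‖ ≤ |B| * Q i s.im ^ (1 / 4 : ℝ) := h1
      _ ≤ |B| * Q i s.im := mul_le_mul_of_nonneg_left h2 (abs_nonneg _)
      _ ≤ _ := mul_le_mul_of_nonneg_right hm2 (by linarith)

/-- a family gives local data at every height -/
theorem ld_of_afam (H : AFam m L Q) : ∃ C K : ℝ, 0 ≤ C ∧ 0 ≤ K ∧ ∀ i T,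
    LD (L i) T (Real.log (Q i T)) C m K := by
  obtain ⟨C, hC, hc⟩ := crude H
  obtain ⟨D, hD, hr⟩ := H.refl
  have hm := H.m0
  have hl : ∀ i T t, Real.log (Q i t) ≤ Real.log (Q i T) + m * Real.log (1 + |t - T|) := by
    intro i T t
    have h1 := H.Qs i T (t - T)
    rw [add_sub_cancel] at h1
    have h2 := H.Q1 i t
    have h3 := H.Q1 i T
    have h4 := Real.log_le_log (by linarith) h1
    rw [Real.log_mul (by positivity) (by linarith), Real.log_rpow (by positivity)] at h4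
    linarith
  refine ⟨Real.log C, Real.log (max 1 D), Real.log_nonneg hC, Real.log_nonneg (le_max_left _ _),
    fun i T => ?_⟩
  have hQT := H.Q1 i T
  refine ⟨H.diff i, Real.log_nonneg hQT, Real.log_nonneg hC, hm, Real.log_nonneg (le_max_left _ _),
    ?_, ?_⟩
  · intro s hs
    have h1 := hc i s (by linarith)
    have h2 := posLog_le_posLog (norm_nonneg _) h1
    have hQ := H.Q1 i s.im
    have h3 : log⁺ (C * Q i s.im) = Real.log C + Real.log (Q i s.im) := by
      rw [posLog_eq_log, Real.log_mul (by linarith) (by linarith)]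
      rw [abs_of_nonneg (by positivity)]
      nlinarith
    have h4 := hl i T s.im
    linarith
  · intro σ t h0 h1 ht
    have h2 := hr i σ t h0 (by linarith)
    have e1 : (⟨1 / 2 - σ, t⟩ : ℂ) = 1 / 2 - σ + t * Complex.I := by
      apply Complex.ext <;> simp
    have e2 : (⟨1 / 2 + σ, t⟩ : ℂ) = 1 / 2 + σ + t * Complex.I := by
      apply Complex.ext <;> simp
    rw [e1, e2] at h2
    have hQ := H.Q1 i t
    have h3 : ‖L i (1 / 2 - σ + t * Complex.I)‖ ≤
        max 1 D * Q i t ^ σ * ‖L i (1 / 2 + σ + t * Complex.I)‖ := by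
      refine h2.trans ?_
      gcongr
      exact le_max_right _ _
    have h4 := posLog_le_posLog (norm_nonneg _) h3
    have h5 : log⁺ (max 1 D * Q i t ^ σ * ‖L i (1 / 2 + σ + t * Complex.I)‖) ≤
      log⁺ (max 1 D * Q i t ^ σ) + log⁺ ‖L i (1 / 2 + σ + t * Complex.I)‖ := posLog_mul
    have h7 : (1:ℝ) ≤ max 1 D := le_max_left _ _
    have h8 : 1 ≤ Q i t ^ σ := Real.one_le_rpow hQ h0
    have h6 : log⁺ (max 1 D * Q i t ^ σ) = Real.log (max 1 D) + σ * Real.log (Q i t) := by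
      rw [posLog_eq_log, Real.log_mul (by positivity) (by positivity), Real.log_rpow (by linarith)]
      rw [abs_of_nonneg (by positivity)]
      nlinarith
    have h9 := hl i T t
    have h10 : Real.log (1 + |t - T|) ≤ Real.log 2 := Real.log_le_log (by positivity) (by linarith)
    have h11 : Real.log (Q i t) ≤ Real.log (Q i T) + m * Real.log 2 := by
      have := mul_le_mul_of_nonneg_left h10 hm
      linarith
    have h12 := mul_le_mul_of_nonneg_left h11 h0
    linarith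

end Pool.Agent.H983R4.GL
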