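import Pool.Agent.H983R4.GL.F2

set_option autoImplicit false
open MeasureTheory Filter Topology Set Real

namespace Pool.Agent.H983R4.GL

open Pool.Agent.H983R4.LH H855R2.SF

variable {ι : Type*}

/-- the points of the window of radius `h` around `T` at which `‖L i‖` exceeds `X ^ κ` -/
def Big (L : ι → ℂ → ℂ) (X : ι → ℝ → ℝ) (κ : ℝ) (i : ι) (T h : ℝ) : Set ℝ :=
  {x : ℝ | |x - T| ≤ h ∧ X i T ^ κ < ‖L i (1 / 2 + x * Complex.I)‖}

/-- `κ₀` is an admissible exponent for the family at all points of `S` -/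
def AdmOn (L : ι → ℂ → ℂ) (X : ι → ℝ → ℝ) (S : Set (ι × ℝ)) (κ₀ : ℝ) : Prop :=
  ∀ ε : ℝ, 0 < ε → ∃ B : ℝ, ∀ (i : ι) (t : ℝ), (i, t) ∈ S →
    ‖L i (1 / 2 + t * Complex.I)‖ ≤ B * X i t ^ (κ₀ + ε)

/-- what is used about the family -/
structure Fam (L : ι → ℂ → ℂ) (X : ι → ℝ → ℝ) : Prop where
  one : ∀ i t, 1 ≤ X i t
  ld : ∃ p C m K : ℝ, 0 < p ∧ 0 ≤ C ∧ 0 ≤ m ∧ 0 ≤ K ∧
    ∀ i T, LD (L i) T (p * Real.log (X i T)) C m K
  shift : ∃ m : ℝ, 0 ≤ m ∧ ∀ i t u, X i (t + u) ≤ (1 + |u|) ^ m * X i t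

variable {L : ι → ℂ → ℂ} {X : ι → ℝ → ℝ}

theorem Fam.persist (H : Fam L X) {κ μ : ℝ} (hκ : 0 < κ) (hκμ : κ < μ) :
    ∃ δ : ℝ, 0 < δ ∧ ∃ X₀ : ℝ, ∀ (i : ι) (T : ℝ), X₀ ≤ X i T →
      X i T ^ μ ≤ ‖L i (1 / 2 + T * Complex.I)‖ → ∀ h : ℝ, 0 < h → h ≤ 1 →
        ENNReal.ofReal (δ * h) < volume (Big L X κ i T h) := by
  obtain ⟨p, C, m, K, hp, hC, hm, hK, hld⟩ := H.ld
  obtain ⟨δ, hδ, ℓ₀, hℓ₀, hper⟩ := GL.persist (C := C) (m := m) (K := K) (κ := κ / p) (μ := μ / p) hC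
    hm hK (by positivity) (by gcongr)
  refine ⟨δ, hδ, Real.exp (ℓ₀ / p), fun i T hX hz h h0 h1 => ?_⟩
  have hX1 := H.one i T
  have hXp : 0 < X i T := by linarith
  have h2 : ℓ₀ ≤ p * Real.log (X i T) := by
    have := Real.log_le_log (Real.exp_pos _) hX
    rw [Real.log_exp, div_le_iff₀ hp] at this
    linarith
  have e : ∀ y : ℝ, Real.exp (y / p * (p * Real.log (X i T))) = X i T ^ y := by
    intro y
    rw [Real.rpow_def_of_pos hXp]
    congr 1
    field_simp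
  have h3 := hper (L i) T _ (hld i T) h2 (by rw [e]; exact hz) h h0 h1
  have e2 : ExF (L i) (κ / p * (p * Real.log (X i T))) T h = Big L X κ i T h := by
    unfold ExF Big
    rw [e]
  rwa [e2] at h3

theorem Fam.points (H : Fam L X) {κ₀ : ℝ} (hκ : 0 ≤ κ₀) (S : Set (ι × ℝ)) {w : ι → ℝ → ℝ}
    (hw : ∀ i t, 0 < w i t ∧ w i t ≤ 1)
    (h : ∀ ε : ℝ, 0 < ε → ∀ η : ℝ, 0 < η → ∃ X₀ : ℝ, ∀ (i : ι) (T : ℝ), (i, T) ∈ S → X₀ ≤ X i T →
      volume (Big L X (κ₀ + ε) i T (w i T)) ≤ ENNReal.ofReal (η * w i T)) : AdmOn L X S κ₀ := by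
  intro ε hε
  obtain ⟨p, C, m, K, hp, hC, hm, hK, hld⟩ := H.ld
  obtain ⟨δ, hδ, X₀, hper⟩ := H.persist (κ := κ₀ + ε / 2) (μ := κ₀ + ε) (by linarith) (by linarith)
  obtain ⟨X₁, hX₁⟩ := h (ε / 2) (by linarith) δ hδ
  set R := max 1 (max X₀ X₁) with hR
  have hR1 : 1 ≤ R := le_max_left _ _
  refine ⟨max 1 (Real.exp C * R ^ p), fun i T hS => ?_⟩
  have hX1 := H.one i T
  have hXp : 0 < X i T := by linarith
  have hXe : 1 ≤ X i T ^ (κ₀ + ε) := Real.one_le_rpow hX1 (by linarith)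
  by_cases hc : X i T ≤ R
  · have h1 := (hld i T).g (1 / 2 + T * Complex.I) (by simp)
    have e1 : (1 / 2 + (T : ℂ) * Complex.I).im = T := by simp
    rw [e1, sub_self, abs_zero, add_zero, Real.log_one, mul_zero, add_zero] at h1
    have h2 : ‖L i (1 / 2 + T * Complex.I)‖ ≤ Real.exp (C + p * Real.log (X i T)) := by
      rcases eq_or_lt_of_le (norm_nonneg (L i (1 / 2 + T * Complex.I))) with h3 | h3
      · rw [← h3]; positivity
      · rw [← Real.log_le_iff_le_exp h3]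
        exact (le_max_right _ _).trans h1
    have h3 : Real.exp (C + p * Real.log (X i T)) = Real.exp C * X i T ^ p := by
      rw [Real.exp_add, Real.rpow_def_of_pos hXp]
      congr 2
      ring
    have h4 : X i T ^ p ≤ R ^ p := Real.rpow_le_rpow hXp.le hc hp.le
    have h5 : Real.exp C * X i T ^ p ≤ Real.exp C * R ^ p :=
      mul_le_mul_of_nonneg_left h4 (Real.exp_pos _).le
    have h6 : Real.exp C * R ^ p ≤ max 1 (Real.exp C * R ^ p) := le_max_right _ _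
    have h7 : max 1 (Real.exp C * R ^ p) ≤ max 1 (Real.exp C * R ^ p) * X i T ^ (κ₀ + ε) :=
      le_mul_of_one_le_right (by positivity) hXe
    linarith
  · push Not at hc
    have hX₀ : X₀ ≤ X i T := ((le_max_left _ _).trans (le_max_right _ _)).trans hc.le
    have hX₁' : X₁ ≤ X i T := ((le_max_right _ _).trans (le_max_right _ _)).trans hc.le
    have h1 : ‖L i (1 / 2 + T * Complex.I)‖ ≤ X i T ^ (κ₀ + ε) := by
      by_contra hcon
      push Not at hcon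
      have h2 := hper i T hX₀ hcon.le (w i T) (hw i T).1 (hw i T).2
      exact absurd (hX₁ i T hS hX₁') (not_le.2 h2)
    refine h1.trans (le_mul_of_one_le_left (by positivity) (le_max_left _ _))

theorem Fam.empty (H : Fam L X) {κ₀ : ℝ} (hκ : 0 ≤ κ₀) (h : AdmOn L X univ κ₀) {ε : ℝ}
    (hε : 0 < ε) : ∃ X₀ : ℝ, 1 < X₀ ∧ ∀ (i : ι) (T : ℝ), X₀ ≤ X i T → ∀ w : ℝ, w ≤ 1 →
      Big L X (κ₀ + ε) i T w = ∅ := by
  obtain ⟨m, hm, hsh⟩ := H.shift
  obtain ⟨B, hB⟩ := h (ε / 2) (by linarith)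
  set e : ℝ := κ₀ + ε / 2 with he
  have he0 : 0 < e := by rw [he]; linarith
  set D : ℝ := |B| * 2 ^ (m * e) + 1 with hD
  have hD1 : 1 ≤ D := by
    have : 0 ≤ |B| * 2 ^ (m * e) := by positivity
    rw [hD]; linarith
  refine ⟨max 2 (D ^ (2 / ε)), lt_of_lt_of_le (by norm_num) (le_max_left _ _), fun i T hX w hw => ?_⟩
  have hXD : D ^ (2 / ε) ≤ X i T := (le_max_right _ _).trans hX
  have hX1 := H.one i T
  have hXp : 0 < X i T := by linarith
  have h2 : D ≤ X i T ^ (ε / 2) := by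
    have h3 := Real.rpow_le_rpow (by positivity) hXD (by linarith : 0 ≤ ε / 2)
    rw [← Real.rpow_mul (by linarith)] at h3
    have : 2 / ε * (ε / 2) = 1 := by field_simp
    rwa [this, Real.rpow_one] at h3
  rw [Set.eq_empty_iff_forall_notMem]
  rintro x ⟨hx1, hx2⟩
  have h4 := hB i x (mem_univ _)
  have h5 : X i x ≤ 2 ^ m * X i T := by
    have h6 := hsh i T (x - T)
    rw [add_sub_cancel] at h6
    refine h6.trans ?_
    refine mul_le_mul_of_nonneg_right ?_ hXp.le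
    exact Real.rpow_le_rpow (by positivity) (by linarith) hm
  have h7 : X i x ^ e ≤ 2 ^ (m * e) * X i T ^ e := by
    have h8 := Real.rpow_le_rpow (by linarith [H.one i x]) h5 he0.le
    rwa [Real.mul_rpow (by positivity) hXp.le, ← Real.rpow_mul (by norm_num)] at h8
  have h9 : X i T ^ (κ₀ + ε) = X i T ^ (ε / 2) * X i T ^ e := by
    rw [← Real.rpow_add hXp]; congr 1; rw [he]; ring
  have h10 : B * X i x ^ e ≤ |B| * (2 ^ (m * e) * X i T ^ e) := by
    calc B * X i x ^ e ≤ |B| * X i x ^ e :=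
          mul_le_mul_of_nonneg_right (le_abs_self B) (Real.rpow_nonneg (by linarith [H.one i x]) _)
      _ ≤ _ := mul_le_mul_of_nonneg_left h7 (abs_nonneg B)
  have h11 : |B| * (2 ^ (m * e) * X i T ^ e) ≤ X i T ^ (ε / 2) * X i T ^ e := by
    rw [← mul_assoc]
    exact mul_le_mul_of_nonneg_right (by linarith) (by positivity)
  linarith

/-- continuity of `log⁺` on the critical line -/
lemma Fam.cont (H : Fam L X) (i : ι) : Continuous fun x : ℝ => log⁺ ‖L i (1 / 2 + x * Complex.I)‖ := by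
  obtain ⟨p, C, m, K, hp, hC, hm, hK, hld⟩ := H.ld
  refine continuous_posLog.comp (continuous_norm.comp ((hld i 0).hd.continuous.comp ?_))
  fun_prop

theorem Fam.log_of_adm (H : Fam L X) (h : AdmOn L X univ 0) {ε : ℝ} (hε : 0 < ε) :
    ∃ X₀ : ℝ, ∀ (i : ι) (T : ℝ), X₀ ≤ X i T → ∀ w : ℝ, 0 < w → w ≤ 1 →
      ∫ x in (T - w)..(T + w), log⁺ ‖L i (1 / 2 + x * Complex.I)‖ ≤ ε * w * Real.log (X i T) := by
  obtain ⟨X₀, hX₀, he⟩ := H.empty le_rfl h (ε := ε / 2) (by linarith)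
  refine ⟨X₀, fun i T hX w hw0 hw1 => ?_⟩
  have hE := he i T hX w hw1
  rw [zero_add] at hE
  have hX1 := H.one i T
  have hXp : 0 < X i T := by linarith
  have hlog : 0 ≤ Real.log (X i T) := Real.log_nonneg hX1
  have h5 : ∫ x in (T - w)..(T + w), log⁺ ‖L i (1 / 2 + x * Complex.I)‖ ≤
      ∫ _ in (T - w)..(T + w), ε / 2 * Real.log (X i T) := by
    refine intervalIntegral.integral_mono_on (by linarith) ((H.cont i).intervalIntegrable _ _)
      intervalIntegrable_const ?_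
    intro t ht
    have h6 : ‖L i (1 / 2 + t * Complex.I)‖ ≤ X i T ^ (ε / 2) := by
      by_contra hcon
      push Not at hcon
      have : t ∈ Big L X (ε / 2) i T w := ⟨by rw [abs_le]; constructor <;> linarith [ht.1, ht.2], hcon⟩
      rw [hE] at this
      exact this
    have h7 := posLog_le_posLog (norm_nonneg _) h6
    have h8 : log⁺ (X i T ^ (ε / 2)) = ε / 2 * Real.log (X i T) := by
      rw [posLog_eq_log, Real.log_rpow hXp]
      rw [abs_of_nonneg (by positivity)]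
      exact Real.one_le_rpow hX1 (by linarith)
    linarith
  rw [intervalIntegral.integral_const, smul_eq_mul] at h5
  linarith [show (T + w - (T - w)) * (ε / 2 * Real.log (X i T)) = ε * w * Real.log (X i T) by ring]

theorem Fam.meas_of_log (H : Fam L X) {ε η : ℝ} (hε : 0 < ε) {i : ι} {T w : ℝ}
    (hw : 0 < w) (hX : 1 < X i T)
    (h : ∫ x in (T - w)..(T + w), log⁺ ‖L i (1 / 2 + x * Complex.I)‖ ≤
      (ε * η) * w * Real.log (X i T)) : volume (Big L X ε i T w) ≤ ENNReal.ofReal (η * w) := by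
  have hXp : 0 < X i T := by linarith
  have hlog : 0 < Real.log (X i T) := Real.log_pos hX
  have hc := H.cont i
  have hint : Integrable (fun x : ℝ => log⁺ ‖L i (1 / 2 + x * Complex.I)‖)
      (volume.restrict (Icc (T - w) (T + w))) :=
    hc.continuousOn.integrableOn_compact isCompact_Icc
  have hM := mul_meas_ge_le_integral_of_nonneg (μ := volume.restrict (Icc (T - w) (T + w)))
    (Eventually.of_forall fun x : ℝ => (posLog_nonneg : 0 ≤ log⁺ ‖L i (1 / 2 + x * Complex.I)‖))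
    hint (ε * Real.log (X i T))
  have hI : ∫ x in Icc (T - w) (T + w), log⁺ ‖L i (1 / 2 + x * Complex.I)‖ =
      ∫ x in (T - w)..(T + w), log⁺ ‖L i (1 / 2 + x * Complex.I)‖ := by
    rw [intervalIntegral.integral_of_le (by linarith), integral_Icc_eq_integral_Ioc]
  rw [hI] at hM
  have hme : MeasurableSet {x : ℝ | ε * Real.log (X i T) ≤ log⁺ ‖L i (1 / 2 + x * Complex.I)‖} :=
    measurableSet_le measurable_const hc.measurable
  have hsub : Big L X ε i T w ⊆ {x : ℝ | ε * Real.log (X i T) ≤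
      log⁺ ‖L i (1 / 2 + x * Complex.I)‖} ∩ Icc (T - w) (T + w) := by
    rintro x ⟨hx1, hx2⟩
    have hx1' := abs_le.1 hx1
    refine ⟨?_, by constructor <;> linarith [hx1'.1, hx1'.2]⟩
    have h3 := Real.log_le_log (by positivity) hx2.le
    rw [Real.log_rpow hXp] at h3
    exact h3.trans (le_max_right _ _)
  have hv : volume (Big L X ε i T w) ≤
      (volume.restrict (Icc (T - w) (T + w)))
        {x : ℝ | ε * Real.log (X i T) ≤ log⁺ ‖L i (1 / 2 + x * Complex.I)‖} := by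
    rw [Measure.restrict_apply hme]
    exact measure_mono hsub
  have hfin : (volume.restrict (Icc (T - w) (T + w)))
        {x : ℝ | ε * Real.log (X i T) ≤ log⁺ ‖L i (1 / 2 + x * Complex.I)‖} ≠ ⊤ :=
    measure_ne_top _ _
  refine hv.trans ?_
  rw [← ENNReal.ofReal_toReal hfin]
  refine ENNReal.ofReal_le_ofReal ?_
  have h4 : ε * Real.log (X i T) * (volume.restrict (Icc (T - w) (T + w))).real
      {x : ℝ | ε * Real.log (X i T) ≤ log⁺ ‖L i (1 / 2 + x * Complex.I)‖} ≤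
      ε * Real.log (X i T) * (η * w) := by
    refine hM.trans (h.trans (le_of_eq ?_))
    ring
  exact le_of_mul_le_mul_left h4 (by positivity)

/-- **the theorem**: large values persist, and the consequences -/
structure Conc (L : ι → ℂ → ℂ) (X : ι → ℝ → ℝ) : Prop where
  persist : ∀ κ μ : ℝ, 0 < κ → κ < μ → ∃ δ : ℝ, 0 < δ ∧ ∃ X₀ : ℝ, ∀ (i : ι) (T : ℝ), X₀ ≤ X i T →
    X i T ^ μ ≤ ‖L i (1 / 2 + T * Complex.I)‖ → ∀ h : ℝ, 0 < h → h ≤ 1 →
      ENNReal.ofReal (δ * h) < volume (Big L X κ i T h)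
  points : ∀ (κ₀ : ℝ) (S : Set (ι × ℝ)) (w : ι → ℝ → ℝ), 0 ≤ κ₀ → (∀ i t, 0 < w i t ∧ w i t ≤ 1) →
    (∀ ε : ℝ, 0 < ε → ∀ η : ℝ, 0 < η → ∃ X₀ : ℝ, ∀ (i : ι) (T : ℝ), (i, T) ∈ S → X₀ ≤ X i T →
      volume (Big L X (κ₀ + ε) i T (w i T)) ≤ ENNReal.ofReal (η * w i T)) → AdmOn L X S κ₀
  meas_iff : ∀ (κ₀ : ℝ) (w : ι → ℝ → ℝ), 0 ≤ κ₀ → (∀ i t, 0 < w i t ∧ w i t ≤ 1) →
    (AdmOn L X univ κ₀ ↔ ∀ ε : ℝ, 0 < ε → ∀ η : ℝ, 0 < η → ∃ X₀ : ℝ, ∀ (i : ι) (T : ℝ),
      X₀ ≤ X i T → volume (Big L X (κ₀ + ε) i T (w i T)) ≤ ENNReal.ofReal (η * w i T))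
  log_iff : ∀ w : ι → ℝ → ℝ, (∀ i t, 0 < w i t ∧ w i t ≤ 1) →
    (AdmOn L X univ 0 ↔ ∀ ε : ℝ, 0 < ε → ∃ X₀ : ℝ, ∀ (i : ι) (T : ℝ), X₀ ≤ X i T →
      ∫ x in (T - w i T)..(T + w i T), log⁺ ‖L i (1 / 2 + x * Complex.I)‖ ≤
        ε * w i T * Real.log (X i T))

theorem Fam.conc (H : Fam L X) : Conc L X where
  persist := fun κ μ hκ hκμ => H.persist hκ hκμ
  points := fun κ₀ S w hκ hw h => H.points hκ S hw h
  meas_iff := by
    intro κ₀ w hκ hw
    constructor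
    · intro h ε hε η hη
      obtain ⟨X₀, _, he⟩ := H.empty hκ h hε
      refine ⟨X₀, fun i T hX => ?_⟩
      rw [he i T hX (w i T) (hw i T).2, measure_empty]
      exact bot_le
    · intro h
      refine H.points hκ univ hw fun ε hε η hη => ?_
      obtain ⟨X₀, hX₀⟩ := h ε hε η hη
      exact ⟨X₀, fun i T _ hX => hX₀ i T hX⟩
  log_iff := by
    intro w hw
    constructor
    · intro h ε hε
      obtain ⟨X₀, hX₀⟩ := H.log_of_adm h hε
      exact ⟨X₀, fun i T hX => hX₀ i T hX _ (hw i T).1 (hw i T).2⟩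
    · intro h
      refine H.points le_rfl univ hw fun ε hε η hη => ?_
      obtain ⟨X₀, hX₀⟩ := h (ε * η) (by positivity)
      refine ⟨max 2 X₀, fun i T _ hX => ?_⟩
      rw [zero_add]
      refine H.meas_of_log hε (hw i T).1 ?_ (hX₀ i T ((le_max_right _ _).trans hX))
      have : (2:ℝ) ≤ X i T := (le_max_left _ _).trans hX
      linarith

/-- from `AFam` -/
theorem Fam.of_afam {m p : ℝ} {Q : ι → ℝ → ℝ} (H : AFam m L Q) (hp : 0 < p)
    (h1 : ∀ i t, 1 ≤ X i t) (hQ : ∀ i t, Q i t = X i t ^ p) : Fam L X where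
  one := h1
  ld := by
    obtain ⟨C, K, hC, hK, h⟩ := ld_of_afam H
    refine ⟨p, C, m, K, hp, hC, H.m0, hK, fun i T => ?_⟩
    have := h i T
    rwa [hQ, Real.log_rpow (by linarith [h1 i T])] at this
  shift := by
    refine ⟨m / p, div_nonneg H.m0 hp.le, fun i t u => ?_⟩
    have h2 := H.Qs i t u
    rw [hQ, hQ] at h2
    have hx := h1 i (t + u)
    have hy := h1 i t
    have h3 := Real.rpow_le_rpow (by positivity) h2 (inv_nonneg.2 hp.le)
    rw [← Real.rpow_mul (by linarith), mul_inv_cancel₀ hp.ne', Real.rpow_one,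
      Real.mul_rpow (by positivity) (by positivity), ← Real.rpow_mul (by positivity),
      ← Real.rpow_mul (by linarith), mul_inv_cancel₀ hp.ne', Real.rpow_one] at h3
    exact h3

end Pool.Agent.H983R4.GL
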