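import Pool.Agent.H983R4.GL.S1

set_option autoImplicit false
open MeasureTheory Filter Topology Set Real

namespace Pool.Agent.H983R4.GL

open Pool.Agent.H983R4.LH H855R2.SF

variable {ι : Type*} {m : ℝ} {L : ι → ℂ → ℂ} {Q : ι → ℝ → ℝ}

/-- the points of the window at which `‖L i‖ ≤ Q ^ κ` -/
def Sml (L : ι → ℂ → ℂ) (Q : ι → ℝ → ℝ) (κ : ℝ) (i : ι) (T h : ℝ) : Set ℝ :=
  {x : ℝ | |x - T| ≤ h ∧ ‖L i (1 / 2 + x * Complex.I)‖ ≤ Q i T ^ κ}

/-- convexity -/
theorem convexity (H : AFam m L Q) : AdmOn L Q univ (1 / 4) := by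
  intro ε hε
  set δ : ℝ := min (1 / 4) (ε / 2) with hδ
  have hδ0 : 0 < δ := lt_min (by norm_num) (by linarith)
  have hδ1 : δ ≤ 1 / 4 := min_le_left _ _
  have hδ2 : δ ≤ ε / 2 := min_le_right _ _
  obtain ⟨B, hB⟩ := H.right δ hδ0
  obtain ⟨C, hC, hr⟩ := H.refl
  obtain ⟨D, hD, hpl⟩ := pl H (a := -δ) (b := 1 + δ) (ea := 1 / 2 + 2 * δ) (eb := δ) (Ca := C * |B|)
    (Cb := |B|) (by linarith) (by linarith) (by linarith) (by linarith) (by linarith)
    (by positivity) (by positivity)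
  have hBn : ∀ i (s : ℂ), 1 + δ ≤ s.re → ‖L i s‖ ≤ |B| * Q i s.im ^ δ := by
    intro i s hs
    refine (hB i s hs).trans ?_
    exact mul_le_mul_of_nonneg_right (le_abs_self B) (Real.rpow_nonneg (by linarith [H.Q1 i s.im]) _)
  refine ⟨D, fun i T _ => ?_⟩
  have hQ := H.Q1 i T
  have h1 := hpl i (by
    intro t
    have e1 := hr i (1 / 2 + δ) t (by linarith) (by linarith)
    have e2 := hBn i ⟨1 / 2 + (1 / 2 + δ), t⟩ (by show 1 + δ ≤ 1 / 2 + (1 / 2 + δ); linarith)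
    have hQt := H.Q1 i t
    have e0 : (⟨1 / 2 - (1 / 2 + δ), t⟩ : ℂ) = ⟨-δ, t⟩ := by
      apply Complex.ext
      · show 1 / 2 - (1 / 2 + δ) = -δ
        ring
      · rfl
    rw [e0] at e1
    have e3 : (⟨1 / 2 + (1 / 2 + δ), t⟩ : ℂ).im = t := rfl
    rw [e3] at e2
    calc ‖L i ⟨-δ, t⟩‖ ≤ C * Q i t ^ (1 / 2 + δ) * ‖L i ⟨1 / 2 + (1 / 2 + δ), t⟩‖ := e1
      _ ≤ C * Q i t ^ (1 / 2 + δ) * (|B| * Q i t ^ δ) :=
          mul_le_mul_of_nonneg_left e2 (by positivity)
      _ = C * |B| * (Q i t ^ (1 / 2 + δ) * Q i t ^ δ) := by ring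
      _ = C * |B| * Q i t ^ (1 / 2 + 2 * δ) := by
          rw [← Real.rpow_add (by linarith)]; ring_nf) (by
    intro t
    exact hBn i ⟨1 + δ, t⟩ le_rfl) (1 / 2 + T * Complex.I) (by simp; linarith) (by simp; linarith)
  have e1 : (1 / 2 + (T : ℂ) * Complex.I).im = T := by simp
  have e2 : (1 / 2 + (T : ℂ) * Complex.I).re = 1 / 2 := by simp
  rw [e1, e2] at h1
  refine h1.trans (mul_le_mul_of_nonneg_left ?_ hD)
  refine Real.rpow_le_rpow_of_exponent_le hQ ?_
  have e3 : (1 / 2 + 2 * δ) + (δ - (1 / 2 + 2 * δ)) / (1 + δ - -δ) * (1 / 2 - -δ) =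
      1 / 4 + 3 / 2 * δ := by
    have : (1:ℝ) + δ - -δ ≠ 0 := by linarith
    field_simp
    ring
  rw [e3]
  linarith

/-- **an admissible exponent improves at a point if it is improved on a positive proportion of a short
window** -/
theorem improve (H : AFam m L Q) {θ δ η : ℝ} (hθ : AdmOn L Q univ θ) (hδ : 0 < δ) (hδθ : δ ≤ θ)
    (hη : 0 < η) : ∃ X₀ : ℝ, ∀ (i : ι) (T : ℝ), X₀ ≤ Q i T → ∀ h : ℝ, 0 < h → h ≤ 1 / 2 →
      h ≤ η * δ / (10 * π) → ENNReal.ofReal (η * (2 * h)) ≤ volume (Sml L Q (θ - δ) i T h) →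
      ‖L i (1 / 2 + T * Complex.I)‖ ≤ Q i T ^ (θ - η * δ / (20 * π)) := by
  have hpi := Real.pi_pos
  have hl2 : 0 < Real.log 2 := Real.log_pos (by norm_num)
  have hC0 := C0_nonneg
  set ε : ℝ := η * δ / (40 * π) with hε
  have hε0 : 0 < ε := by positivity
  obtain ⟨B, hB⟩ := hθ ε hε0
  obtain ⟨C, K, hC, hK, hld⟩ := ld_of_afam H
  set B₁ : ℝ := max 1 |B| with hB₁
  have hB1 : 1 ≤ B₁ := le_max_left _ _
  set m' : ℝ := (θ + ε) * m with hm'
  have hm0 := H.m0
  have hm'0 : 0 ≤ m' := by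
    have : 0 ≤ θ + ε := by linarith
    positivity
  set c₀ : ℝ := K + Real.log B₁ + m' * Real.log 2 + m' * C0 / (2 * π) with hc₀
  refine ⟨Real.exp (max (m * Real.log 2) (c₀ / ε)), fun i T hX h h0 h1 h2 hv => ?_⟩
  have hQ1 := H.Q1 i T
  have hQp : 0 < Q i T := by linarith
  set ℓ : ℝ := Real.log (Q i T) with hℓ
  have hℓ0 : 0 ≤ ℓ := Real.log_nonneg hQ1
  have hℓ1 : max (m * Real.log 2) (c₀ / ε) ≤ ℓ := by
    rw [hℓ, Real.le_log_iff_exp_le hQp]; exact hX
  have hℓ2 : m * Real.log 2 ≤ ℓ := (le_max_left _ _).trans hℓ1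
  have hℓ3 : c₀ ≤ ε * ℓ := by
    have := (le_max_right _ _).trans hℓ1
    rw [div_le_iff₀ hε0] at this
    linarith
  have hlog : ∀ t, Real.log (Q i t) ≤ ℓ + m * Real.log (1 + |t - T|) := by
    intro t
    have h1 := H.Qs i T (t - T)
    rw [add_sub_cancel] at h1
    have h2 := H.Q1 i t
    have h4 := Real.log_le_log (by linarith) h1
    rw [Real.log_mul (by positivity) (by linarith), Real.log_rpow (by positivity)] at h4
    linarith
  set A : ℝ := Real.log B₁ + (θ + ε) * ℓ with hA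
  have hlB : 0 ≤ Real.log B₁ := Real.log_nonneg hB1
  have hline : ∀ x : ℝ, log⁺ ‖L i (1 / 2 + (x : ℂ) * Complex.I)‖ ≤
      A + m' * Real.log (1 + |x - T|) := by
    intro x
    have h3 := hB i x (mem_univ _)
    have hQx := H.Q1 i x
    have h4 : ‖L i (1 / 2 + (x : ℂ) * Complex.I)‖ ≤ B₁ * Q i x ^ (θ + ε) := by
      refine h3.trans (mul_le_mul_of_nonneg_right ?_ (Real.rpow_nonneg (by linarith) _))
      exact (le_abs_self B).trans (le_max_right _ _)
    have h5 := posLog_le_posLog (norm_nonneg _) h4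
    have h6 : log⁺ (B₁ * Q i x ^ (θ + ε)) = Real.log B₁ + (θ + ε) * Real.log (Q i x) := by
      have h7 : 1 ≤ Q i x ^ (θ + ε) := Real.one_le_rpow hQx (by linarith)
      rw [posLog_eq_log, Real.log_mul (by positivity) (by positivity), Real.log_rpow (by linarith)]
      rw [abs_of_nonneg (by positivity)]
      nlinarith
    have h7 := mul_le_mul_of_nonneg_left (hlog x) (by linarith : 0 ≤ θ + ε)
    rw [hA, hm']
    linarith
  set E := Sml L Q (θ - δ) i T h with hE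
  have hcont : Continuous fun x : ℝ => ‖L i (1 / 2 + (x : ℂ) * Complex.I)‖ := by
    refine continuous_norm.comp ((H.diff i).continuous.comp ?_)
    fun_prop
  have hEm : MeasurableSet E := by
    have e : E = {x : ℝ | |x - T| ≤ h} ∩
        {x : ℝ | ‖L i (1 / 2 + (x : ℂ) * Complex.I)‖ ≤ Q i T ^ (θ - δ)} := rfl
    rw [e]
    have hc1 : Measurable fun x : ℝ => |x - T| := by fun_prop
    exact (measurableSet_le hc1 measurable_const).inter
      (measurableSet_le hcont.measurable measurable_const)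
  have hκ : ∀ x ∈ E, log⁺ ‖L i (1 / 2 + (x : ℂ) * Complex.I)‖ ≤ (θ - δ) * ℓ := by
    intro x hx
    have h4 := posLog_le_posLog (norm_nonneg _) hx.2
    have h5 : log⁺ (Q i T ^ (θ - δ)) = (θ - δ) * ℓ := by
      rw [posLog_eq_log, Real.log_rpow hQp]
      rw [abs_of_nonneg (by positivity)]
      exact Real.one_le_rpow hQ1 (by linarith)
    linarith
  have hεℓ : 0 ≤ ε * ℓ := by positivity
  have hδℓ : 0 ≤ δ * ℓ := by positivity
  have hD : δ * ℓ ≤ A - (θ - δ) * ℓ := by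
    rw [hA]
    linarith [show (θ + ε) * ℓ - (θ - δ) * ℓ = ε * ℓ + δ * ℓ by ring]
  have hEfin : volume E ≠ ⊤ := by
    have : E ⊆ Icc (T - h) (T + h) := by
      rintro x ⟨hx, _⟩
      have := abs_le.1 hx
      constructor <;> linarith [this.1, this.2]
    refine ne_top_of_le_ne_top ?_ (measure_mono this)
    rw [Real.volume_Icc]
    exact ENNReal.ofReal_ne_top
  have he : η * (2 * h) ≤ (volume E).toReal := by
    have := ENNReal.toReal_mono hEfin hv
    rwa [ENNReal.toReal_ofReal (by positivity)] at this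
  -- the bracket
  have hBr : ℓ + m * Real.log 2 - (A - (θ - δ) * ℓ) * (volume E).toReal / (5 * π * h ^ 2) ≤
      -(η * δ * ℓ / (5 * π * h)) := by
    have g1 : δ * ℓ * (η * (2 * h)) ≤ (A - (θ - δ) * ℓ) * (volume E).toReal :=
      mul_le_mul hD he (by positivity) (by linarith)
    have g2 : δ * ℓ * (η * (2 * h)) / (5 * π * h ^ 2) ≤
        (A - (θ - δ) * ℓ) * (volume E).toReal / (5 * π * h ^ 2) :=
      div_le_div_of_nonneg_right g1 (by positivity)
    have g3 : δ * ℓ * (η * (2 * h)) / (5 * π * h ^ 2) = 2 * (η * δ * ℓ / (5 * π * h)) := by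
      field_simp
    have g4 : 2 * ℓ ≤ η * δ * ℓ / (5 * π * h) := by
      rw [le_div_iff₀ (by positivity)]
      have g5 : h * (10 * π) ≤ η * δ := by
        rwa [le_div_iff₀ (by positivity)] at h2
      have g6 := mul_le_mul_of_nonneg_right g5 hℓ0
      linarith [show 2 * ℓ * (5 * π * h) = h * (10 * π) * ℓ by ring]
    linarith
  have hneg : 0 ≤ η * δ * ℓ / (5 * π * h) := by positivity
  have hfin := local2 (hld i T) hm'0 hline hEm (fun x hx => hx.1) hκ (by linarith) h0 h1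
    (by linarith)
  have g7 : h / 2 * (ℓ + m * Real.log 2 - (A - (θ - δ) * ℓ) * (volume E).toReal /
      (5 * π * h ^ 2)) ≤ -(4 * ε * ℓ) := by
    have g8 := mul_le_mul_of_nonneg_left hBr (by linarith : 0 ≤ h / 2)
    have g9 : h / 2 * -(η * δ * ℓ / (5 * π * h)) = -(4 * ε * ℓ) := by
      rw [hε]
      field_simp
      ring
    linarith
  have g10 : log⁺ ‖L i (1 / 2 + T * Complex.I)‖ ≤ (θ - 2 * ε) * ℓ := by
    have e : (θ - 2 * ε) * ℓ = (θ + ε) * ℓ - 4 * ε * ℓ + ε * ℓ := by ring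
    rw [e]
    rw [hc₀] at hℓ3
    rw [hA] at hfin g7
    linarith
  have e2 : θ - η * δ / (20 * π) = θ - 2 * ε := by
    rw [hε]; field_simp; ring
  rw [e2]
  rcases eq_or_lt_of_le (norm_nonneg (L i (1 / 2 + T * Complex.I))) with h3 | h3
  · rw [← h3]; positivity
  · have e3 : Q i T ^ (θ - 2 * ε) = Real.exp ((θ - 2 * ε) * ℓ) := by
      rw [Real.rpow_def_of_pos hQp]
      congr 1
      ring
    rw [e3, ← Real.log_le_iff_le_exp h3]
    exact (le_max_right _ _).trans g10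

/-- **subconvexity is a property of positive proportions of short windows** -/
theorem subconv_iff (H : AFam m L Q) :
    (∃ δ : ℝ, 0 < δ ∧ ∃ B : ℝ, ∀ (i : ι) (T : ℝ),
      ‖L i (1 / 2 + T * Complex.I)‖ ≤ B * Q i T ^ (1 / 4 - δ)) ↔
    (∃ δ η X₀ : ℝ, 0 < δ ∧ δ ≤ 1 / 4 ∧ 0 < η ∧ η ≤ 1 ∧ ∀ (i : ι) (T : ℝ), X₀ ≤ Q i T →
      ∃ h : ℝ, 0 < h ∧ h ≤ η * δ / (10 * π) ∧
        ENNReal.ofReal (η * (2 * h)) ≤ volume (Sml L Q (1 / 4 - δ) i T h)) := by
  have hpi := Real.pi_pos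
  have hpi3 := Real.pi_gt_three
  constructor
  · rintro ⟨δ, hδ, B, hB⟩
    set δ₁ : ℝ := min δ (1 / 4) with hδ₁
    have hδ₁0 : 0 < δ₁ := lt_min hδ (by norm_num)
    have hδ₁1 : δ₁ ≤ 1 / 4 := min_le_right _ _
    have hδ₁2 : δ₁ ≤ δ := min_le_left _ _
    set M : ℝ := |B| * 2 ^ m + 1 with hM
    have hM1 : 1 ≤ M := by
      have : 0 ≤ |B| * 2 ^ m := by positivity
      rw [hM]; linarith
    refine ⟨δ₁ / 2, 1, M ^ (2 / δ₁), by positivity, by linarith, one_pos, le_rfl, fun i T hX => ?_⟩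
    have hh : (1:ℝ) * (δ₁ / 2) / (10 * π) ≤ 1 := by
      rw [div_le_one (by positivity)]
      linarith
    refine ⟨1 * (δ₁ / 2) / (10 * π), by positivity, le_rfl, ?_⟩
    set h : ℝ := 1 * (δ₁ / 2) / (10 * π) with hhd
    have hh0 : 0 < h := by positivity
    have hQ1 := H.Q1 i T
    have hQp : 0 < Q i T := by linarith
    have h2 : M ≤ Q i T ^ (δ₁ / 2) := by
      have h3 := Real.rpow_le_rpow (by positivity) hX (by positivity : 0 ≤ δ₁ / 2)
      rw [← Real.rpow_mul (by linarith)] at h3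
      have : 2 / δ₁ * (δ₁ / 2) = 1 := by field_simp
      rwa [this, Real.rpow_one] at h3
    have hsub : Icc (T - h) (T + h) ⊆ Sml L Q (1 / 4 - δ₁ / 2) i T h := by
      rintro x ⟨hx1, hx2⟩
      have hx : |x - T| ≤ h := by rw [abs_le]; constructor <;> linarith
      refine ⟨hx, ?_⟩
      have hQx := H.Q1 i x
      have h5 : Q i x ≤ 2 ^ m * Q i T := by
        have h6 := H.Qs i T (x - T)
        rw [add_sub_cancel] at h6
        refine h6.trans ?_
        refine mul_le_mul_of_nonneg_right ?_ hQp.le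
        exact Real.rpow_le_rpow (by positivity) (by linarith) H.m0
      have h2m : (1:ℝ) ≤ 2 ^ m := Real.one_le_rpow (by norm_num) H.m0
      have h7 : Q i x ^ (1 / 4 - δ₁) ≤ 2 ^ m * Q i T ^ (1 / 4 - δ₁) := by
        have h8 := Real.rpow_le_rpow (by linarith) h5 (by linarith : 0 ≤ 1 / 4 - δ₁)
        rw [Real.mul_rpow (by positivity) hQp.le] at h8
        refine h8.trans (mul_le_mul_of_nonneg_right ?_ (by positivity))
        conv_rhs => rw [← Real.rpow_one ((2:ℝ) ^ m)]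
        exact Real.rpow_le_rpow_of_exponent_le h2m (by linarith)
      calc ‖L i (1 / 2 + x * Complex.I)‖ ≤ B * Q i x ^ (1 / 4 - δ) := hB i x
        _ ≤ |B| * Q i x ^ (1 / 4 - δ) :=
            mul_le_mul_of_nonneg_right (le_abs_self B) (Real.rpow_nonneg (by linarith) _)
        _ ≤ |B| * Q i x ^ (1 / 4 - δ₁) :=
            mul_le_mul_of_nonneg_left (Real.rpow_le_rpow_of_exponent_le hQx (by linarith))
              (abs_nonneg B)
        _ ≤ |B| * (2 ^ m * Q i T ^ (1 / 4 - δ₁)) := mul_le_mul_of_nonneg_left h7 (abs_nonneg B)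
        _ = (|B| * 2 ^ m) * Q i T ^ (1 / 4 - δ₁) := by ring
        _ ≤ Q i T ^ (δ₁ / 2) * Q i T ^ (1 / 4 - δ₁) :=
            mul_le_mul_of_nonneg_right (by linarith) (by positivity)
        _ = Q i T ^ (1 / 4 - δ₁ / 2) := by
            rw [← Real.rpow_add hQp]; congr 1; ring
    refine le_trans (le_of_eq ?_) (measure_mono hsub)
    rw [Real.volume_Icc]
    congr 1
    ring
  · rintro ⟨δ, η, X₀, hδ, hδ4, hη, hη1, h⟩
    obtain ⟨X₁, hX₁⟩ := improve H (convexity H) hδ hδ4 hη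
    obtain ⟨C, hC, hc⟩ := crude H
    have hsm : η * δ / (10 * π) ≤ 1 / 2 := by
      rw [div_le_iff₀ (by positivity)]
      nlinarith
    have hd4 : η * δ / (20 * π) ≤ 1 / 4 := by
      rw [div_le_iff₀ (by positivity)]
      nlinarith
    refine ⟨η * δ / (20 * π), by positivity, max 1 (C * max 1 (max X₀ X₁)), fun i T => ?_⟩
    set R : ℝ := max 1 (max X₀ X₁) with hR
    have hR1 : 1 ≤ R := le_max_left _ _
    have hQ1 := H.Q1 i T
    have hQe : 1 ≤ Q i T ^ (1 / 4 - η * δ / (20 * π)) := Real.one_le_rpow hQ1 (by linarith)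
    by_cases hcas : Q i T ≤ R
    · have h1 := hc i (1 / 2 + T * Complex.I) (by simp; norm_num)
      have e1 : (1 / 2 + (T : ℂ) * Complex.I).im = T := by simp
      rw [e1] at h1
      have h2 : C * Q i T ≤ C * R := mul_le_mul_of_nonneg_left hcas (by linarith)
      have h3 : C * R ≤ max 1 (C * R) := le_max_right _ _
      have h4 : max 1 (C * R) ≤ max 1 (C * R) * Q i T ^ (1 / 4 - η * δ / (20 * π)) :=
        le_mul_of_one_le_right (by positivity) hQe
      linarith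
    · push Not at hcas
      have hX₀ : X₀ ≤ Q i T := ((le_max_left _ _).trans (le_max_right _ _)).trans hcas.le
      have hX₁' : X₁ ≤ Q i T := ((le_max_right _ _).trans (le_max_right _ _)).trans hcas.le
      obtain ⟨w, hw0, hw1, hw⟩ := h i T hX₀
      have h1 := hX₁ i T hX₁' w hw0 (hw1.trans hsm) hw1 hw
      exact h1.trans (le_mul_of_one_le_left (by positivity) (le_max_left _ _))

end Pool.Agent.H983R4.GL
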