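import Pool.Agent.H983R4.GL.S2

set_option autoImplicit false
open MeasureTheory Filter Topology Set Real

namespace Pool.Agent.H983R4.GL

open Pool.Agent.H983R4.LH H855R2.SF

variable {ι : Type*} {m : ℝ} {L : ι → ℂ → ℂ} {Q : ι → ℝ → ℝ}

/-- `‖L i‖ ≤ Q ^ κ` on a proportion `η` of one window of radius at most `ρ` around every point of large
conductor -/
def Somewhere (L : ι → ℂ → ℂ) (Q : ι → ℝ → ℝ) (κ η ρ : ℝ) : Prop :=
  ∃ X₀ : ℝ, ∀ (i : ι) (T : ℝ), X₀ ≤ Q i T → ∃ h : ℝ, 0 < h ∧ h ≤ 1 / 2 ∧ h ≤ ρ ∧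
    ENNReal.ofReal (η * (2 * h)) ≤ volume (Sml L Q κ i T h)

theorem step (H : AFam m L Q) {θ δ η : ℝ} (hθ : AdmOn L Q univ θ) (hδ : 0 < δ) (hδθ : δ ≤ θ)
    (hη : 0 < η) (hη1 : η ≤ 1) (h : Somewhere L Q (θ - δ) η (η * δ / (10 * π))) :
    AdmOn L Q univ (θ - η * δ / (20 * π)) := by
  have hpi3 := Real.pi_gt_three
  obtain ⟨X₀, h⟩ := h
  obtain ⟨X₁, hX₁⟩ := improve H hθ hδ hδθ hη
  obtain ⟨C, hC, hc⟩ := crude H
  have hd4 : η * δ / (20 * π) ≤ θ := by
    rw [div_le_iff₀ (by positivity)]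
    nlinarith
  intro ε hε
  refine ⟨max 1 (C * max 1 (max X₀ X₁)), fun i T _ => ?_⟩
  set R : ℝ := max 1 (max X₀ X₁) with hR
  have hR1 : 1 ≤ R := le_max_left _ _
  have hQ1 := H.Q1 i T
  have hQe : 1 ≤ Q i T ^ (θ - η * δ / (20 * π) + ε) := Real.one_le_rpow hQ1 (by linarith)
  by_cases hcas : Q i T ≤ R
  · have h1 := hc i (1 / 2 + T * Complex.I) (by simp; norm_num)
    have e1 : (1 / 2 + (T : ℂ) * Complex.I).im = T := by simp
    rw [e1] at h1
    have h2 : C * Q i T ≤ C * R := mul_le_mul_of_nonneg_left hcas (by linarith)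
    have h3 : C * R ≤ max 1 (C * R) := le_max_right _ _
    have h4 : max 1 (C * R) ≤ max 1 (C * R) * Q i T ^ (θ - η * δ / (20 * π) + ε) :=
      le_mul_of_one_le_right (by positivity) hQe
    linarith
  · push Not at hcas
    have hX₀ : X₀ ≤ Q i T := ((le_max_left _ _).trans (le_max_right _ _)).trans hcas.le
    have hX₁' : X₁ ≤ Q i T := ((le_max_right _ _).trans (le_max_right _ _)).trans hcas.le
    obtain ⟨w, hw0, hw1, hw2, hw⟩ := h i T hX₀
    have h1 := hX₁ i T hX₁' w hw0 hw1 hw2 hw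
    have h2 : Q i T ^ (θ - η * δ / (20 * π)) ≤ Q i T ^ (θ - η * δ / (20 * π) + ε) :=
      Real.rpow_le_rpow_of_exponent_le hQ1 (by linarith)
    exact (h1.trans h2).trans (le_mul_of_one_le_left (by positivity) (le_max_left _ _))

/-- the least admissible exponent -/
theorem least (H : AFam m L Q) : ∃ θ : ℝ, 0 ≤ θ ∧ AdmOn L Q univ θ ∧
    ∀ θ' : ℝ, 0 ≤ θ' → AdmOn L Q univ θ' → θ ≤ θ' := by
  set S : Set ℝ := {θ : ℝ | 0 ≤ θ ∧ AdmOn L Q univ θ} with hS
  have hne : S.Nonempty := ⟨1 / 4, by norm_num, convexity H⟩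
  have hbd : BddBelow S := ⟨0, fun θ h => h.1⟩
  refine ⟨sInf S, le_csInf hne fun θ h => h.1, fun ε hε => ?_, fun θ' h0 h => csInf_le hbd ⟨h0, h⟩⟩
  obtain ⟨θ, hθ, hlt⟩ := exists_lt_of_csInf_lt hne (show sInf S < sInf S + ε / 2 by linarith)
  obtain ⟨B, hB⟩ := hθ.2 (ε / 2) (by linarith)
  refine ⟨|B|, fun i t ht => ?_⟩
  have hQ := H.Q1 i t
  calc ‖L i (1 / 2 + t * Complex.I)‖ ≤ B * Q i t ^ (θ + ε / 2) := hB i t ht
    _ ≤ |B| * Q i t ^ (θ + ε / 2) :=
        mul_le_mul_of_nonneg_right (le_abs_self B) (Real.rpow_nonneg (by linarith) _)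
    _ ≤ |B| * Q i t ^ (sInf S + ε) :=
        mul_le_mul_of_nonneg_left (Real.rpow_le_rpow_of_exponent_le hQ (by linarith))
          (abs_nonneg B)

/-- near-maximal values spread over almost all of every short window -/
theorem spread (H : AFam m L Q) {θ : ℝ} (hθ : AdmOn L Q univ θ)
    (hmin : ∀ θ' : ℝ, 0 ≤ θ' → AdmOn L Q univ θ' → θ ≤ θ') {δ η : ℝ} (hδ : 0 < δ) (hδθ : δ ≤ θ)
    (hη : 0 < η) (hη1 : η ≤ 1) : ¬ Somewhere L Q (θ - δ) η (η * δ / (10 * π)) := by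
  have hpi3 := Real.pi_gt_three
  intro h
  have h1 := step H hθ hδ hδθ hη hη1 h
  have hd4 : η * δ / (20 * π) ≤ θ := by
    rw [div_le_iff₀ (by positivity)]
    nlinarith
  have h2 := hmin _ (by linarith) h1
  have h3 : 0 < η * δ / (20 * π) := by positivity
  linarith

theorem lind_iff (H : AFam m L Q) : AdmOn L Q univ 0 ↔
    ∀ ε : ℝ, 0 < ε → ∃ η : ℝ, 0 < η ∧ η ≤ 1 ∧ Somewhere L Q ε η (η * ε / (10 * π)) := by
  constructor
  · intro h ε hε
    have HF : Fam L Q := Fam.of_afam (p := 1) H one_pos H.Q1 fun i t => by rw [Real.rpow_one]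
    obtain ⟨X₀, hX₀, he⟩ := HF.empty le_rfl h hε
    refine ⟨1, one_pos, le_rfl, X₀, fun i T hX => ?_⟩
    have hpi3 := Real.pi_gt_three
    set w : ℝ := min (1 / 2) (1 * ε / (10 * π)) with hw
    have hw0 : 0 < w := lt_min (by norm_num) (by positivity)
    have hw1 : w ≤ 1 / 2 := min_le_left _ _
    refine ⟨w, hw0, hw1, min_le_right _ _, ?_⟩
    have hE := he i T hX w (by linarith)
    rw [zero_add] at hE
    have hsub : Icc (T - w) (T + w) ⊆ Sml L Q ε i T w := by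
      rintro x ⟨hx1, hx2⟩
      have hx : |x - T| ≤ w := by rw [abs_le]; constructor <;> linarith
      refine ⟨hx, ?_⟩
      by_contra hcon
      push Not at hcon
      have : x ∈ Big L Q ε i T w := ⟨hx, hcon⟩
      rw [hE] at this
      exact this
    refine le_trans (le_of_eq ?_) (measure_mono hsub)
    rw [Real.volume_Icc]
    congr 1
    ring
  · intro h
    obtain ⟨θ, hθ0, hθ, hmin⟩ := least H
    rcases eq_or_lt_of_le hθ0 with h0 | h0
    · rw [h0]; exact hθ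
    · exfalso
      obtain ⟨η, hη, hη1, hs⟩ := h (θ / 2) (by linarith)
      refine spread H hθ hmin (δ := θ / 2) (by linarith) (by linarith) hη hη1 ?_
      rw [show θ - θ / 2 = θ / 2 by ring]
      exact hs

section scaled

variable {X : ι → ℝ → ℝ} {p : ℝ}

lemma adm_scale (hp : 0 < p) (h1 : ∀ i t, 1 ≤ X i t) (hQ : ∀ i t, Q i t = X i t ^ p) {θ : ℝ} :
    AdmOn L X univ θ ↔ AdmOn L Q univ (θ / p) := by
  constructor
  · intro h ε hε
    obtain ⟨B, hB⟩ := h (ε * p) (by positivity)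
    refine ⟨B, fun i t ht => ?_⟩
    have := hB i t ht
    rw [hQ, ← Real.rpow_mul (by linarith [h1 i t])]
    rwa [show p * (θ / p + ε) = θ + ε * p by field_simp]
  · intro h ε hε
    obtain ⟨B, hB⟩ := h (ε / p) (by positivity)
    refine ⟨B, fun i t ht => ?_⟩
    have := hB i t ht
    rw [hQ, ← Real.rpow_mul (by linarith [h1 i t])] at this
    rwa [show p * (θ / p + ε / p) = θ + ε by field_simp] at this

lemma some_scale (hp : 0 < p) (h1 : ∀ i t, 1 ≤ X i t) (hQ : ∀ i t, Q i t = X i t ^ p)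
    {κ η ρ : ℝ} : Somewhere L X κ η ρ ↔ Somewhere L Q (κ / p) η ρ := by
  have e : ∀ i T h, Sml L Q (κ / p) i T h = Sml L X κ i T h := by
    intro i T h
    unfold Sml
    rw [hQ, ← Real.rpow_mul (by linarith [h1 i T])]
    rw [show p * (κ / p) = κ by field_simp]
  constructor
  · rintro ⟨X₀, h⟩
    refine ⟨max 1 X₀ ^ p, fun i T hX => ?_⟩
    rw [hQ, Real.rpow_le_rpow_iff (by positivity) (by linarith [h1 i T]) hp] at hX
    obtain ⟨w, a, b, c, d⟩ := h i T ((le_max_right _ _).trans hX)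
    exact ⟨w, a, b, c, by rw [e]; exact d⟩
  · rintro ⟨X₀, h⟩
    refine ⟨max 1 X₀ ^ p⁻¹, fun i T hX => ?_⟩
    have h2 : X₀ ≤ Q i T := by
      rw [hQ]
      have h3 := Real.rpow_le_rpow (by positivity) hX hp.le
      rw [← Real.rpow_mul (by positivity), inv_mul_cancel₀ hp.ne', Real.rpow_one] at h3
      exact (le_max_right _ _).trans h3
    obtain ⟨w, a, b, c, d⟩ := h i T h2
    exact ⟨w, a, b, c, by rw [← e]; exact d⟩

theorem lind_iff_scaled (H : AFam m L Q) (hp : 0 < p) (h1 : ∀ i t, 1 ≤ X i t)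
    (hQ : ∀ i t, Q i t = X i t ^ p) : AdmOn L X univ 0 ↔
    ∀ ε : ℝ, 0 < ε → ∃ η : ℝ, 0 < η ∧ η ≤ 1 ∧ Somewhere L X ε η (η * ε / (10 * π * p)) := by
  rw [adm_scale hp h1 hQ, zero_div, lind_iff H]
  constructor
  · intro h ε hε
    obtain ⟨η, hη, hη1, hs⟩ := h (ε / p) (by positivity)
    refine ⟨η, hη, hη1, ?_⟩
    rw [some_scale hp h1 hQ]
    rwa [show η * ε / (10 * π * p) = η * (ε / p) / (10 * π) by field_simp]
  · intro h ε hε
    obtain ⟨η, hη, hη1, hs⟩ := h (ε * p) (by positivity)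
    refine ⟨η, hη, hη1, ?_⟩
    rw [some_scale hp h1 hQ] at hs
    rwa [show ε * p / p = ε by field_simp,
      show η * (ε * p) / (10 * π * p) = η * ε / (10 * π) by field_simp] at hs

theorem spread_scaled (H : AFam m L Q) (hp : 0 < p) (h1 : ∀ i t, 1 ≤ X i t)
    (hQ : ∀ i t, Q i t = X i t ^ p) : ∃ θ : ℝ, 0 ≤ θ ∧ AdmOn L X univ θ ∧
    (∀ θ' : ℝ, 0 ≤ θ' → AdmOn L X univ θ' → θ ≤ θ') ∧
    ∀ δ η : ℝ, 0 < δ → δ ≤ θ → 0 < η → η ≤ 1 →
      ¬ Somewhere L X (θ - δ) η (η * δ / (10 * π * p)) := by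
  obtain ⟨θ, hθ0, hθ, hmin⟩ := least H
  refine ⟨θ * p, by positivity, ?_, ?_, ?_⟩
  · rw [adm_scale hp h1 hQ, show θ * p / p = θ by field_simp]
    exact hθ
  · intro θ' h0 h
    rw [adm_scale hp h1 hQ] at h
    have := hmin _ (by positivity) h
    rwa [le_div_iff₀ hp] at this
  · intro δ η hδ hδθ hη hη1 h
    rw [some_scale hp h1 hQ] at h
    refine spread H hθ hmin (δ := δ / p) (by positivity) (by rwa [div_le_iff₀ hp]) hη hη1 ?_
    rwa [show (θ * p - δ) / p = θ - δ / p by field_simp,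
      show η * δ / (10 * π * p) = η * (δ / p) / (10 * π) by field_simp] at h

end scaled

end Pool.Agent.H983R4.GL
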