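import Pool.Agent.H983R4.GL.S2
import Pool.Agent.H855R2.SF.Dir

/-!
Propagation at given points, for families with a size parameter `d` (conductor at most `b d^A`).
-/

set_option autoImplicit false
open MeasureTheory Filter Topology Set Real

namespace Pool.Agent.H983R4.GL.T

open Pool.Agent.H983R4.LH Pool.Agent.H983R4.GL H855R2.SF

variable {ι : Type} {m : ℕ}

/-- the family of L-functions attached to data `N`, `mu`, `f`, with points `T i` on the critical line, is an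
`AFam` for the conductor `(1 + |t - T i|)^m b d^A` -/
theorem afam_pt {N : ι → ℕ} {mu : ι → Fin m → ℂ} {f : ι → ℂ → ℂ} {T d : ι → ℝ} {b : ℝ} {A : ℕ}
    (hN : ∀ i, 0 < N i) (hmu : ∀ i j, (mu i j).re < 1 / 2) (hent : ∀ i, Differentiable ℂ (f i))
    (hord : ∀ i, ∃ a : ℝ, ∀ s : ℂ, -1 / 4 ≤ s.re → s.re ≤ 5 / 4 →
      ‖f i s‖ ≤ Real.exp (a * (1 + |s.im|) ^ a))
    (hfe : ∀ i, ∃ root : ℂ, ‖root‖ = 1 ∧ ∀ s : ℂ,
      f i s * ∏ j, (Complex.Gammaℝ (1 - s - (starRingEnd ℂ) (mu i j)))⁻¹ =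
        root * (N i : ℂ) ^ (1 / 2 - s) * (starRingEnd ℂ) (f i (1 - (starRingEnd ℂ) s)) *
          ∏ j, (Complex.Gammaℝ (s - mu i j))⁻¹)
    (hd : ∀ i, 1 ≤ d i) (hb : 1 ≤ b)
    (hc : ∀ i, (N i : ℝ) * ∏ j, (1 + ‖mu i j - (T i : ℂ) * Complex.I‖) ≤ b * d i ^ A)
    (hR : ∀ δ : ℝ, 0 < δ → ∃ B : ℝ, ∀ i (s : ℂ), 1 + δ ≤ s.re → ‖f i s‖ ≤
      B * ((1 + |s.im - T i|) ^ m * (b * d i ^ A)) ^ δ) :
    AFam (m : ℝ) f (fun i t => (1 + |t - T i|) ^ m * (b * d i ^ A)) where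
  m0 := by positivity
  Q1 := by
    intro i t
    have h1 : (1:ℝ) ≤ (1 + |t - T i|) ^ m := one_le_pow₀ (by linarith [abs_nonneg (t - T i)])
    have h2 : (1:ℝ) ≤ b * d i ^ A := one_le_mul_of_one_le_of_one_le hb (one_le_pow₀ (hd i))
    exact one_le_mul_of_one_le_of_one_le h1 h2
  Qs := by
    intro i t u
    have h0 := hd i
    rw [Real.rpow_natCast, ← mul_assoc ((1 + |u|) ^ m), ← mul_pow]
    refine mul_le_mul_of_nonneg_right ?_ (by positivity)
    refine pow_le_pow_left₀ (by positivity) ?_ m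
    have h2 : |t + u - T i| ≤ |t - T i| + |u| := by
      rw [show t + u - T i = (t - T i) + u by ring]
      exact abs_add_le _ _
    nlinarith [abs_nonneg (t - T i), abs_nonneg u, mul_nonneg (abs_nonneg (t - T i)) (abs_nonneg u)]
  diff := hent
  order := hord
  right := hR
  refl := by
    refine ⟨16 ^ m, by positivity, fun i x t hx0 hx1 => ?_⟩
    obtain ⟨root, hroot, h⟩ := hfe i
    have h0 := hd i
    refine (refl_of_fe (hN i) (mu i) (hmu i) hroot h (t := t) hx0 hx1).trans ?_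
    refine mul_le_mul_of_nonneg_right ?_ (norm_nonneg _)
    refine mul_le_mul_of_nonneg_left ?_ (by positivity)
    have h70 : 0 ≤ ((N i : ℕ) : ℝ) * ∏ j, (1 + ‖mu i j - (t : ℂ) * Complex.I‖) :=
      mul_nonneg (Nat.cast_nonneg _) (Finset.prod_nonneg fun j _ => by positivity)
    refine Real.rpow_le_rpow h70 ?_ hx0
    have h2 := cond_shift (N i) (mu i) (T i) (t - T i)
    rw [add_sub_cancel, Real.rpow_natCast] at h2
    refine h2.trans ?_
    exact mul_le_mul_of_nonneg_left (hc i) (by positivity)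

/-- **propagation at the points `T i`** -/
theorem point {f : ι → ℂ → ℂ} {T d : ι → ℝ} {b : ℝ} {A : ℕ} (hA : 0 < A) (hd : ∀ i, 1 ≤ d i)
    (hb : 1 ≤ b) (H : AFam (m : ℝ) f (fun i t => (1 + |t - T i|) ^ m * (b * d i ^ A)))
    {δ η : ℝ} (hδ : 0 < δ) (hδA : δ ≤ A / 4) (hη : 0 < η) (hη1 : η ≤ 1) :
    ∃ B : ℝ, ∀ i, (∃ h : ℝ, 0 < h ∧ h ≤ η * δ / (10 * π * A) ∧ ENNReal.ofReal (η * (2 * h)) ≤
      volume {x : ℝ | |x - T i| ≤ h ∧ ‖f i (1 / 2 + x * Complex.I)‖ ≤ d i ^ ((A : ℝ) / 4 - δ)}) →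
      ‖f i (1 / 2 + T i * Complex.I)‖ ≤ B * d i ^ ((A : ℝ) / 4 - η * δ / (20 * π)) := by
  have hpi := Real.pi_pos
  have hpi3 := Real.pi_gt_three
  have hAr : (0:ℝ) < A := by exact_mod_cast hA
  have hA1 : (1:ℝ) ≤ A := by exact_mod_cast hA
  obtain ⟨X₁, hX₁⟩ := improve H (convexity H) (δ := δ / A) (η := η) (by positivity)
    (by rw [div_le_iff₀ hAr]; linarith) hη
  obtain ⟨C, hC, hcr⟩ := crude H
  set R : ℝ := max 1 X₁ with hR
  have hR1 : 1 ≤ R := le_max_left _ _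
  have hg : η * δ / (20 * π) ≤ (A : ℝ) / 4 := by
    rw [div_le_iff₀ (by positivity)]
    nlinarith
  refine ⟨max (C * R) b, fun i h => ?_⟩
  obtain ⟨w, hw0, hw1, hw⟩ := h
  have h0 := hd i
  have hd0 : 0 < d i := by linarith
  have eQ : (1 + |T i - T i|) ^ m * (b * d i ^ A) = b * d i ^ A := by simp
  have hQ1 : 1 ≤ b * d i ^ A := one_le_mul_of_one_le_of_one_le hb (one_le_pow₀ h0)
  have hde : 1 ≤ d i ^ ((A : ℝ) / 4 - η * δ / (20 * π)) := Real.one_le_rpow h0 (by linarith)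
  have hdp : ∀ y : ℝ, (d i ^ A) ^ y = d i ^ ((A : ℝ) * y) := by
    intro y
    rw [← Real.rpow_natCast, ← Real.rpow_mul hd0.le]
  by_cases hcas : b * d i ^ A ≤ R
  · have h1 := hcr i (1 / 2 + T i * Complex.I) (by simp; norm_num)
    have e1 : (1 / 2 + (T i : ℂ) * Complex.I).im = T i := by simp
    rw [e1, eQ] at h1
    have h2 : C * (b * d i ^ A) ≤ C * R := mul_le_mul_of_nonneg_left hcas (by linarith)
    have h3 : C * R ≤ max (C * R) b := le_max_left _ _
    have h4 : max (C * R) b ≤ max (C * R) b * d i ^ ((A : ℝ) / 4 - η * δ / (20 * π)) :=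
      le_mul_of_one_le_right (by positivity) hde
    linarith
  · push Not at hcas
    have hX : X₁ ≤ (1 + |T i - T i|) ^ m * (b * d i ^ A) := by
      rw [eQ]; exact (le_max_right _ _).trans hcas.le
    have hδ2 : η * (δ / A) / (10 * π) = η * δ / (10 * π * A) := by field_simp
    have hsm : w ≤ 1 / 2 := by
      refine hw1.trans ?_
      rw [div_le_iff₀ (by positivity)]
      nlinarith
    have hexp : (0:ℝ) ≤ 1 / 4 - δ / A := by
      rw [sub_nonneg, div_le_iff₀ hAr]; linarith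
    have h1 := hX₁ i (T i) hX w hw0 hsm (by rw [hδ2]; exact hw1) (by
      refine hw.trans (measure_mono ?_)
      rintro x ⟨hx1, hx2⟩
      refine ⟨hx1, hx2.trans ?_⟩
      have e2 : d i ^ ((A : ℝ) / 4 - δ) = (d i ^ A) ^ (1 / 4 - δ / A) := by
        rw [hdp]; congr 1; field_simp
      rw [e2]
      refine Real.rpow_le_rpow (by positivity) ?_ hexp
      show d i ^ A ≤ (1 + |T i - T i|) ^ m * (b * d i ^ A)
      rw [eQ]
      exact le_mul_of_one_le_left (by positivity) hb)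
    have h1' : ‖f i (1 / 2 + T i * Complex.I)‖ ≤
        ((1 + |T i - T i|) ^ m * (b * d i ^ A)) ^ (1 / 4 - η * (δ / A) / (20 * π)) := h1
    rw [eQ] at h1'
    refine h1'.trans ?_
    rw [Real.mul_rpow (by linarith) (by positivity), hdp]
    have e3 : (A : ℝ) * (1 / 4 - η * (δ / A) / (20 * π)) = (A : ℝ) / 4 - η * δ / (20 * π) := by
      field_simp
    rw [e3]
    refine mul_le_mul_of_nonneg_right ?_ (by positivity)
    have h5 : b ^ (1 / 4 - η * (δ / A) / (20 * π)) ≤ b ^ (1:ℝ) := by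
      refine Real.rpow_le_rpow_of_exponent_le hb ?_
      have : 0 ≤ η * (δ / A) / (20 * π) := by positivity
      linarith
    rw [Real.rpow_one] at h5
    exact h5.trans (le_max_right _ _)

end Pool.Agent.H983R4.GL.T
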