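import Pool.Agent.H983R4.GL.T1

/-!
Data of L-functions, and propagation of bounds at given points of the critical line.
-/

set_option autoImplicit false
open MeasureTheory Filter Topology Set Real

namespace Pool.Agent.H983R4.GL.T

open Pool.Agent.H983R4.GL H855R2.SF

/-- The data of an L-function of degree `m` over `ℚ`: the conductor `N`, the archimedean parameters `mu j` (the
factor at infinity is `∏ j, Γ_ℝ (s - mu j)`) and the L-function `f` (continued to the complex plane). -/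
structure Datum (m : ℕ) where
  N : ℕ
  mu : Fin m → ℂ
  f : ℂ → ℂ

/-- The analytic conductor at `1/2 + it`: `N ∏ j, (1 + |mu j - it|)`. -/
noncomputable def Datum.C {m : ℕ} (D : Datum m) (t : ℝ) : ℝ :=
  D.N * ∏ j, (1 + ‖D.mu j - (t : ℂ) * Complex.I‖)

/-- The classical properties: `N ≥ 1`, `Re (mu j) < 1/2`, `f` is entire, of finite order in the strip
`-1/4 ≤ Re s ≤ 5/4`, and satisfies the functional equation `Λ(s) = root N^(1/2-s) conj (Λ(1 - conj s))`,
`Λ(s) = f(s) ∏ j, Γ_ℝ (s - mu j)`, with `|root| = 1` (divided by the gamma factors of both sides). -/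
structure Datum.Ok {m : ℕ} (D : Datum m) : Prop where
  N_pos : 0 < D.N
  mu_re : ∀ j, (D.mu j).re < 1 / 2
  entire : Differentiable ℂ D.f
  order : ∃ A : ℝ, ∀ s : ℂ, -1 / 4 ≤ s.re → s.re ≤ 5 / 4 →
    ‖D.f s‖ ≤ Real.exp (A * (1 + |s.im|) ^ A)
  fe : ∃ root : ℂ, ‖root‖ = 1 ∧ ∀ s : ℂ,
    D.f s * ∏ j, (Complex.Gammaℝ (1 - s - (starRingEnd ℂ) (D.mu j)))⁻¹ =
      root * (D.N : ℂ) ^ (1 / 2 - s) * (starRingEnd ℂ) (D.f (1 - (starRingEnd ℂ) s)) *
        ∏ j, (Complex.Gammaℝ (s - D.mu j))⁻¹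

variable {ι : Type} {m : ℕ}

/-- The bound `f(s) = O(d^ε)` in `Re s ≥ 1 + ε`, uniform in the family; `d` is the size parameter. -/
def RightBound (F : ι → Datum m) (d : ι → ℝ) : Prop := ∀ ε : ℝ, 0 < ε → ∃ B : ℝ,
  ∀ (i : ι) (s : ℂ), 1 + ε ≤ s.re → ‖(F i).f s‖ ≤ B * d i ^ ε

/-- On a proportion `η` of one window of radius `h ≤ ρ` around `T`, the bound `|f(1/2 + ix)| ≤ M` holds. -/
def SmallSomewhere (D : Datum m) (T M η ρ : ℝ) : Prop := ∃ h : ℝ, 0 < h ∧ h ≤ ρ ∧
  ENNReal.ofReal (η * (2 * h)) ≤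
    volume {x : ℝ | |x - T| ≤ h ∧ ‖D.f (1 / 2 + x * Complex.I)‖ ≤ M}

theorem main {F : ι → Datum m} {T d : ι → ℝ} {b : ℝ} {A : ℕ} (hA : 0 < A) (hF : ∀ i, (F i).Ok)
    (hR : RightBound F d) (hd : ∀ i, 1 ≤ d i) (hc : ∀ i, (F i).C (T i) ≤ b * d i ^ A)
    {δ η : ℝ} (hδ : 0 < δ) (hδA : δ ≤ A / 4) (hη : 0 < η) (hη1 : η ≤ 1) :
    ∃ B : ℝ, ∀ i, SmallSomewhere (F i) (T i) (d i ^ ((A : ℝ) / 4 - δ)) η (η * δ / (10 * π * A)) →
      ‖(F i).f (1 / 2 + T i * Complex.I)‖ ≤ B * d i ^ ((A : ℝ) / 4 - η * δ / (20 * π)) := by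
  have hb : (1:ℝ) ≤ max 1 b := le_max_left _ _
  have H : AFam (m : ℝ) (fun i => (F i).f)
      (fun i t => (1 + |t - T i|) ^ m * (max 1 b * d i ^ A)) := by
    refine afam_pt (fun i => (hF i).N_pos) (fun i => (hF i).mu_re) (fun i => (hF i).entire)
      (fun i => (hF i).order) (fun i => (hF i).fe) hd hb (fun i => ?_) fun ε hε => ?_
    · refine (hc i).trans (mul_le_mul_of_nonneg_right (le_max_right _ _) ?_)
      have := hd i
      positivity
    · obtain ⟨B, hB⟩ := hR ε hε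
      refine ⟨|B|, fun i s hs => (hB i s hs).trans ?_⟩
      have h0 := hd i
      have h1 : d i ≤ (1 + |s.im - T i|) ^ m * (max 1 b * d i ^ A) := by
        have g1 : (1:ℝ) ≤ (1 + |s.im - T i|) ^ m :=
          one_le_pow₀ (by linarith [abs_nonneg (s.im - T i)])
        have g2 : d i ≤ d i ^ A := by
          calc d i = d i ^ 1 := (pow_one _).symm
            _ ≤ d i ^ A := pow_le_pow_right₀ h0 hA
        have g3 : d i ^ A ≤ max 1 b * d i ^ A := le_mul_of_one_le_left (by positivity) hb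
        have g4 : max 1 b * d i ^ A ≤ (1 + |s.im - T i|) ^ m * (max 1 b * d i ^ A) :=
          le_mul_of_one_le_left (by positivity) g1
        linarith
      calc B * d i ^ ε ≤ |B| * d i ^ ε :=
            mul_le_mul_of_nonneg_right (le_abs_self B) (Real.rpow_nonneg (by linarith) _)
        _ ≤ _ := mul_le_mul_of_nonneg_left (Real.rpow_le_rpow (by linarith) h1 hε.le)
            (abs_nonneg B)
  exact point hA hd hb H hδ hδA hη hη1

end Pool.Agent.H983R4.GL.T
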