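import Pool.Agent.H983R4.GL.S1

set_option autoImplicit false
open MeasureTheory Filter Topology Set Real

namespace Pool.Agent.H983R4.GL.Z

open Pool.Agent.H983R4.LH Pool.Agent.H983R4.GL

/-- local data at a height `T`, general growth -/
structure LZ (F : ℂ → ℂ) (T ℓ m K : ℝ) : Prop where
  hd : Differentiable ℂ F
  hℓ : 0 ≤ ℓ
  hm : 0 ≤ m
  hK : 0 ≤ K
  growth : ∃ A B : ℝ, 0 ≤ B ∧ ∀ s : ℂ, 1 / 2 ≤ s.re → log⁺ ‖F s‖ ≤ A + B * Real.log (‖s‖ + 1)
  r : ∀ σ t : ℝ, 0 ≤ σ → σ ≤ 1 / 2 → |t - T| ≤ 1 →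
    log⁺ ‖F (1 / 2 - σ + t * Complex.I)‖ ≤ K + σ * (ℓ + m * Real.log 2) +
      log⁺ ‖F (1 / 2 + σ + t * Complex.I)‖

variable {F : ℂ → ℂ} {T ℓ m K : ℝ}

/-- bound inside the half plane, with a gain from `E` -/
lemma inner2 (H : LZ F T ℓ m K) {A m' κ h a t : ℝ} {E : Set ℝ} (hm' : 0 ≤ m')
    (hA : ∀ x : ℝ, log⁺ ‖F (1 / 2 + (x : ℂ) * Complex.I)‖ ≤ A + m' * Real.log (1 + |x - T|))
    (hEm : MeasurableSet E) (hsub : ∀ x ∈ E, |x - T| ≤ h)
    (hκ : ∀ x ∈ E, log⁺ ‖F (1 / 2 + (x : ℂ) * Complex.I)‖ ≤ κ) (hκA : κ ≤ A)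
    (h1 : h ≤ 1) (ha : 0 < a) (hah : a ≤ h) (ht : |t - T| ≤ h) :
    log⁺ ‖F (1 / 2 + a + t * Complex.I)‖ ≤
      A + m' * Real.log 2 + m' * C0 / (2 * π) -
        (A - κ) * a * (volume E).toReal / (5 * π * h ^ 2) := by
  have hpi := Real.pi_pos
  have hh : 0 < h := lt_of_lt_of_le ha hah
  have hl2 : 0 < Real.log 2 := Real.log_pos (by norm_num)
  obtain ⟨A0, B0, hB0, hg0⟩ := H.growth
  refine (poissonF H.hd hB0 hg0 ha t).trans ?_
  rw [← div_eq_inv_mul, div_le_iff₀ (by positivity)]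
  rw [intervalIntegral.integral_of_le (by positivity)]
  set V := Vs a t E with hV
  have hVm : MeasurableSet V := Vs_meas hEm
  have hVsub : V ⊆ Ioc 0 (2 * π) := inter_subset_left
  have hg1 : Integrable (fun _ : ℝ => A + m' * Real.log 2) (volume.restrict (Set.Ioc 0 (2 * π))) :=
    integrable_const _
  have hg2 : Integrable (V.indicator (fun _ : ℝ => A - κ)) (volume.restrict (Set.Ioc 0 (2 * π))) :=
    (integrable_const _).indicator hVm
  have hg3 : Integrable (fun θ => m' * ps θ) (volume.restrict (Set.Ioc 0 (2 * π))) :=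
    ps_integrable.const_mul m'
  have hle : ∫ θ in Set.Ioc 0 (2 * π), log⁺ ‖F (1 / 2 + ((t + a * ct θ : ℝ) : ℂ) * Complex.I)‖ ≤
      ∫ θ in Set.Ioc 0 (2 * π), ((A + m' * Real.log 2) + m' * ps θ -
        V.indicator (fun _ : ℝ => A - κ) θ) := by
    refine integral_mono_of_nonneg (Eventually.of_forall fun θ => posLog_nonneg)
      ((hg1.add hg3).sub hg2) ?_
    filter_upwards [ae_mem] with θ hθ
    have hp := ps_nonneg θ
    have hmp : 0 ≤ m' * ps θ := by positivity
    by_cases hθV : θ ∈ V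
    · have h2 := hκ _ hθV.2
      have e : V.indicator (fun _ : ℝ => A - κ) θ = A - κ := indicator_of_mem hθV _
      have h3 : 0 ≤ m' * Real.log 2 := by positivity
      show log⁺ ‖F (1 / 2 + ((t + a * ct θ : ℝ) : ℂ) * Complex.I)‖ ≤
        (A + m' * Real.log 2) + m' * ps θ - V.indicator (fun _ : ℝ => A - κ) θ
      rw [e]
      linarith
    · have e : V.indicator (fun _ : ℝ => A - κ) θ = 0 := indicator_of_notMem hθV _
      have h2 := hA (t + a * ct θ)
      have h3 : |t + a * ct θ - T| ≤ h + h * |ct θ| := by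
        have : t + a * ct θ - T = (t - T) + a * ct θ := by ring
        rw [this]
        refine (abs_add_le _ _).trans (add_le_add ht ?_)
        rw [abs_mul, abs_of_pos ha]
        exact mul_le_mul_of_nonneg_right hah (abs_nonneg _)
      have h4 : 1 + |t + a * ct θ - T| ≤ 2 * (1 + |ct θ|) := by
        have : h * |ct θ| ≤ 1 * |ct θ| := mul_le_mul_of_nonneg_right h1 (abs_nonneg _)
        have := abs_nonneg (ct θ)
        linarith
      have h5 : Real.log (1 + |t + a * ct θ - T|) ≤ Real.log 2 + ps θ := by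
        have h8 := Real.log_le_log (by positivity) h4
        rwa [Real.log_mul (by positivity) (by positivity)] at h8
      have h6 := mul_le_mul_of_nonneg_left h5 hm'
      show log⁺ ‖F (1 / 2 + ((t + a * ct θ : ℝ) : ℂ) * Complex.I)‖ ≤
        (A + m' * Real.log 2) + m' * ps θ - V.indicator (fun _ : ℝ => A - κ) θ
      rw [e]
      linarith
  refine hle.trans ?_
  have e6 : (volume.restrict (Set.Ioc 0 (2 * π))).real Set.univ = 2 * π := by
    simp [Measure.real, Real.volume_Ioc, hpi.le]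
  have e1 : ∫ θ in Set.Ioc 0 (2 * π), ((A + m' * Real.log 2) + m' * ps θ -
        V.indicator (fun _ : ℝ => A - κ) θ) =
      2 * π * (A + m' * Real.log 2) + m' * C0 -
        ∫ θ in Set.Ioc 0 (2 * π), V.indicator (fun _ : ℝ => A - κ) θ := by
    have e4 := integral_sub (f := fun θ => (A + m' * Real.log 2) + m' * ps θ)
      (g := fun θ => V.indicator (fun _ : ℝ => A - κ) θ) (hg1.add hg3) hg2
    have e5 := integral_add (f := fun _ : ℝ => A + m' * Real.log 2)
      (g := fun θ => m' * ps θ) hg1 hg3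
    have e7 : ∫ θ in Set.Ioc 0 (2 * π), m' * ps θ = m' * C0 := by
      unfold C0
      exact integral_const_mul m' ps
    have e8 : ∫ _ in Set.Ioc 0 (2 * π), (A + m' * Real.log 2) = 2 * π * (A + m' * Real.log 2) := by
      rw [integral_const, e6, smul_eq_mul]
    rw [e4, e5, e7, e8]
  have e2 : ∫ θ in Set.Ioc 0 (2 * π), V.indicator (fun _ : ℝ => A - κ) θ =
      (volume V).toReal * (A - κ) := by
    rw [integral_indicator hVm, integral_const, smul_eq_mul, Measure.real,
      Measure.restrict_apply_univ, Measure.restrict_apply hVm, inter_eq_left.2 hVsub]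
  have hVfin : volume V ≠ ⊤ := by
    refine ne_top_of_le_ne_top ?_ (measure_mono hVsub)
    rw [Real.volume_Ioc]
    exact ENNReal.ofReal_ne_top
  have e3 : 2 * a / (5 * h ^ 2) * (volume E).toReal ≤ (volume V).toReal := by
    have h2 := vol_lower ha hah ht hEm hsub
    have h3 := ENNReal.toReal_mono hVfin h2
    rwa [ENNReal.toReal_mul, ENNReal.toReal_ofReal (by positivity)] at h3
  rw [e1, e2]
  have e4 := mul_le_mul_of_nonneg_right e3 (sub_nonneg.2 hκA)
  have e5 : (A + m' * Real.log 2 + m' * C0 / (2 * π) -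
        (A - κ) * a * (volume E).toReal / (5 * π * h ^ 2)) * (2 * π) =
      2 * π * (A + m' * Real.log 2) + m' * C0 - 2 * a / (5 * h ^ 2) * (volume E).toReal * (A - κ) := by
    field_simp
  rw [e5]
  linarith

/-- **the local inequality** -/
lemma local2 (H : LZ F T ℓ m K) {A m' κ h : ℝ} {E : Set ℝ} (hm' : 0 ≤ m')
    (hA : ∀ x : ℝ, log⁺ ‖F (1 / 2 + (x : ℂ) * Complex.I)‖ ≤ A + m' * Real.log (1 + |x - T|))
    (hEm : MeasurableSet E) (hsub : ∀ x ∈ E, |x - T| ≤ h)
    (hκ : ∀ x ∈ E, log⁺ ‖F (1 / 2 + (x : ℂ) * Complex.I)‖ ≤ κ) (hκA : κ ≤ A)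
    (h0 : 0 < h) (h1 : h ≤ 1 / 2)
    (hB : ℓ + m * Real.log 2 - (A - κ) * (volume E).toReal / (5 * π * h ^ 2) ≤ 0) :
    log⁺ ‖F (1 / 2 + T * Complex.I)‖ ≤ K + (A + m' * Real.log 2 + m' * C0 / (2 * π)) +
      h / 2 * (ℓ + m * Real.log 2 - (A - κ) * (volume E).toReal / (5 * π * h ^ 2)) := by
  have hpi := Real.pi_pos
  have hm := H.hm
  have hℓ := H.hℓ
  have hK := H.hK
  have hl2 : 0 < Real.log 2 := Real.log_pos (by norm_num)
  have hℓ2 : 0 ≤ ℓ + m * Real.log 2 := by positivity
  have han : AnalyticOnNhd ℂ F (Metric.closedBall (1 / 2 + T * Complex.I) h) :=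
    fun s _ => H.hd.analyticAt s
  have hsubm := posLog_submean h0 han
  rw [circleAverage_def, smul_eq_mul, ← div_eq_inv_mul, le_div_iff₀ (by positivity),
    intervalIntegral.integral_of_le (by positivity)] at hsubm
  set A2 : ℝ := A + m' * Real.log 2 + m' * C0 / (2 * π) with hA2
  set Br : ℝ := ℓ + m * Real.log 2 - (A - κ) * (volume E).toReal / (5 * π * h ^ 2) with hBr
  have hpt : ∀ θ : ℝ, Real.cos θ ≠ 0 →
      log⁺ ‖F (circleMap (1 / 2 + T * Complex.I) h θ)‖ ≤ (K + A2) + h * Br * Real.cos θ ^ 2 := by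
    intro θ hcz
    set σ : ℝ := h * |Real.cos θ| with hσ
    set t : ℝ := T + h * Real.sin θ with ht
    have hpos : 0 < |Real.cos θ| := abs_pos.2 hcz
    have hσ0 : 0 < σ := by positivity
    have hcos := Real.abs_cos_le_one θ
    have hσr : σ ≤ h := by
      rw [hσ]; nlinarith
    have hsin := Real.abs_sin_le_one θ
    have htT : |t - T| ≤ h := by
      rw [ht, add_sub_cancel_left, abs_mul, abs_of_pos h0]
      nlinarith
    set s : ℂ := 1 / 2 + σ + t * Complex.I with hs
    have hstep : log⁺ ‖F (circleMap (1 / 2 + T * Complex.I) h θ)‖ ≤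
        K + σ * (ℓ + m * Real.log 2) + log⁺ ‖F s‖ := by
      have hcm : circleMap (1 / 2 + T * Complex.I) h θ =
          1 / 2 + ((h * Real.cos θ : ℝ) : ℂ) + t * Complex.I := by
        rw [circleMap, Complex.exp_mul_I, ht]
        push_cast
        ring
      rcases le_total 0 (Real.cos θ) with hc | hc
      · have : circleMap (1 / 2 + T * Complex.I) h θ = s := by
          rw [hcm, hs, hσ, abs_of_nonneg hc]
        rw [this]
        have : 0 ≤ σ * (ℓ + m * Real.log 2) := by positivity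
        linarith
      · have : circleMap (1 / 2 + T * Complex.I) h θ = 1 / 2 - σ + t * Complex.I := by
          rw [hcm, hσ, abs_of_nonpos hc]
          push_cast
          ring
        rw [this]
        exact H.r σ t hσ0.le (by linarith) (by linarith)
    have h2 := inner2 H hm' hA hEm hsub hκ hκA (by linarith) hσ0 hσr htT
    have h3 : log⁺ ‖F s‖ ≤ A2 - (A - κ) * σ * (volume E).toReal / (5 * π * h ^ 2) := h2
    have h4 : log⁺ ‖F (circleMap (1 / 2 + T * Complex.I) h θ)‖ ≤ (K + A2) + σ * Br := by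
      have e : σ * Br = σ * (ℓ + m * Real.log 2) -
          (A - κ) * σ * (volume E).toReal / (5 * π * h ^ 2) := by
        rw [hBr]; ring
      rw [e]
      linarith
    have h5 : σ * Br ≤ h * Br * Real.cos θ ^ 2 := by
      have h6 : Real.cos θ ^ 2 ≤ |Real.cos θ| := by
        rw [← sq_abs]
        nlinarith
      have h7 : h * Br ≤ 0 := mul_nonpos_of_nonneg_of_nonpos h0.le hB
      have h8 := mul_le_mul_of_nonpos_left h6 h7
      have e : σ * Br = h * Br * |Real.cos θ| := by rw [hσ]; ring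
      rw [e]
      exact h8
    linarith
  have hae : ∀ᵐ θ : ℝ ∂(volume.restrict (Set.Ioc 0 (2 * π))), Real.cos θ ≠ 0 := by
    refine ae_restrict_of_ae ?_
    have hcount : {θ : ℝ | Real.cos θ = 0}.Countable := by
      have : {θ : ℝ | Real.cos θ = 0} ⊆ Set.range (fun k : ℤ => (2 * (k : ℝ) + 1) * π / 2) := by
        intro θ hθ
        obtain ⟨k, hk⟩ := Real.cos_eq_zero_iff.1 hθ
        exact ⟨k, hk.symm⟩
      exact (Set.countable_range _).mono this
    have h2 := hcount.measure_zero volume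
    rw [ae_iff]
    simpa using h2
  have hc2 : Continuous fun θ : ℝ => h * Br * Real.cos θ ^ 2 := by fun_prop
  have hint2 : Integrable (fun θ : ℝ => h * Br * Real.cos θ ^ 2)
      (volume.restrict (Set.Ioc 0 (2 * π))) :=
    (hc2.continuousOn.integrableOn_compact (isCompact_Icc (a := 0) (b := 2 * π))).mono_set
      Ioc_subset_Icc_self
  have hint : Integrable (fun θ : ℝ => (K + A2) + h * Br * Real.cos θ ^ 2)
      (volume.restrict (Set.Ioc 0 (2 * π))) := (integrable_const _).add hint2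
  have hle : ∫ θ in Set.Ioc 0 (2 * π), log⁺ ‖F (circleMap (1 / 2 + T * Complex.I) h θ)‖ ≤
      ∫ θ in Set.Ioc 0 (2 * π), ((K + A2) + h * Br * Real.cos θ ^ 2) := by
    refine integral_mono_of_nonneg (Eventually.of_forall fun θ => posLog_nonneg) hint ?_
    filter_upwards [hae] with θ hθ
    exact hpt θ hθ
  have e1 : ∫ θ in Set.Ioc 0 (2 * π), ((K + A2) + h * Br * Real.cos θ ^ 2) =
      2 * π * (K + A2) + h * Br * π := by
    have e4 := integral_add (μ := volume.restrict (Set.Ioc 0 (2 * π))) (f := fun _ : ℝ => K + A2)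
      (g := fun θ => h * Br * Real.cos θ ^ 2) (integrable_const _) hint2
    have e6 : (volume.restrict (Set.Ioc 0 (2 * π))).real Set.univ = 2 * π := by
      simp [Measure.real, Real.volume_Ioc, hpi.le]
    have e7 : ∫ θ in Set.Ioc 0 (2 * π), h * Br * Real.cos θ ^ 2 = h * Br * π := by
      rw [integral_const_mul, ← intervalIntegral.integral_of_le (by positivity), integral_cos_sq]
      simp
    have e8 : ∫ _ in Set.Ioc 0 (2 * π), (K + A2) = 2 * π * (K + A2) := by
      rw [integral_const, e6, smul_eq_mul]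
    rw [e4, e7, e8]
  rw [e1] at hle
  have e2 : (K + A2 + h / 2 * Br) * (2 * π) = 2 * π * (K + A2) + h * Br * π := by ring
  have h9 : log⁺ ‖F (1 / 2 + T * Complex.I)‖ * (2 * π) ≤ (K + A2 + h / 2 * Br) * (2 * π) := by
    rw [e2]
    exact hsubm.trans hle
  exact le_of_mul_le_mul_right h9 (by positivity)

end Pool.Agent.H983R4.GL.Z
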