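import Pool.Agent.H983R4.GL.Z1
import Pool.Agent.H983R4.LH.P5

set_option autoImplicit false
open MeasureTheory Filter Topology Set Real

namespace Pool.Agent.H983R4.GL.Z

open Pool.Agent.H983R4.LH Pool.Agent.H983R4.GL

/-- `(s - 1) ζ(s) / T`, entire -/
noncomputable def FT (T : ℝ) (s : ℂ) : ℂ := riemannZeta₁ s / (T : ℂ)

lemma FT_norm {T : ℝ} (hT : 0 < T) {s : ℂ} (hs : s ≠ 1) :
    ‖FT T s‖ = ‖s - 1‖ / T * ‖riemannZeta s‖ := by
  unfold FT
  rw [Pool.Agent.H437R2.z1_of_ne hs, norm_div, norm_mul, Complex.norm_real, Real.norm_eq_abs,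
    abs_of_pos hT]
  ring

lemma log2_pos : 0 < Real.log 2 := Real.log_pos (by norm_num)

/-- general comparison -/
lemma FT_le {T c : ℝ} (hT : 0 < T) (hc : 1 ≤ c) {s : ℂ} (hs : s ≠ 1) (h : ‖s - 1‖ ≤ c * T) :
    log⁺ ‖FT T s‖ ≤ Real.log c + log⁺ ‖riemannZeta s‖ := by
  have h1 : ‖FT T s‖ ≤ c * ‖riemannZeta s‖ := by
    rw [FT_norm hT hs]
    refine mul_le_mul_of_nonneg_right ?_ (norm_nonneg _)
    rwa [div_le_iff₀ hT]
  have h2 := posLog_le_posLog (norm_nonneg _) h1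
  have h3 : log⁺ (c * ‖riemannZeta s‖) ≤ log⁺ c + log⁺ ‖riemannZeta s‖ := posLog_mul
  have h4 : log⁺ c = Real.log c := posLog_eq_log (by rw [abs_of_nonneg (by linarith)]; exact hc)
  linarith

lemma le_FT {T c : ℝ} (hT : 0 < T) (hc : 1 ≤ c) {s : ℂ} (hs : s ≠ 1) (h : T ≤ c * ‖s - 1‖) :
    log⁺ ‖riemannZeta s‖ ≤ Real.log c + log⁺ ‖FT T s‖ := by
  have h1 : ‖riemannZeta s‖ ≤ c * ‖FT T s‖ := by
    rw [FT_norm hT hs]
    have : 1 ≤ c * (‖s - 1‖ / T) := by
      rw [mul_div_assoc', le_div_iff₀ hT]; linarith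
    nlinarith [norm_nonneg (riemannZeta s)]
  have h2 := posLog_le_posLog (norm_nonneg _) h1
  have h3 : log⁺ (c * ‖FT T s‖) ≤ log⁺ c + log⁺ ‖FT T s‖ := posLog_mul
  have h4 : log⁺ c = Real.log c := posLog_eq_log (by rw [abs_of_nonneg (by linarith)]; exact hc)
  linarith

lemma ne_one_of_re {s : ℂ} (h : s.re < 1) : s ≠ 1 := by
  rintro rfl
  simp at h

lemma ne_one_of_im {s : ℂ} (h : s.im ≠ 0) : s ≠ 1 := by
  rintro rfl
  simp at h

theorem lz : ∃ K : ℝ, 0 ≤ K ∧ ∀ T : ℝ, 8 ≤ T → LZ (FT T) T (Real.log T) 1 K := by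
  obtain ⟨K, hK, hz⟩ := zeta_left
  have hl2 := log2_pos
  refine ⟨K + 2 * Real.log 2, by positivity, fun T hT => ?_⟩
  have hT0 : 0 < T := by linarith
  have hTc : (T : ℂ) ≠ 0 := by exact_mod_cast hT0.ne'
  refine ⟨?_, Real.log_nonneg (by linarith), zero_le_one, by positivity, ?_, ?_⟩
  · unfold FT
    exact differentiable_riemannZeta₁.div_const _
  · refine ⟨Real.log 3, 2, by norm_num, fun s hs => ?_⟩
    have h1 := Pool.Agent.H437R2.z1_norm_le hs
    have h2 : ‖FT T s‖ ≤ 3 * (‖s‖ + 1) ^ 2 := by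
      unfold FT
      rw [norm_div, Complex.norm_real, Real.norm_eq_abs, abs_of_pos hT0, div_le_iff₀ hT0]
      have : 0 ≤ 3 * (‖s‖ + 1) ^ 2 := by positivity
      nlinarith
    have h3 := posLog_le_posLog (norm_nonneg _) h2
    have h0 : (0:ℝ) ≤ ‖s‖ := norm_nonneg _
    have h4 : log⁺ (3 * (‖s‖ + 1) ^ 2) = Real.log 3 + 2 * Real.log (‖s‖ + 1) := by
      rw [posLog_eq_log, Real.log_mul (by norm_num) (by positivity), Real.log_pow]
      · push_cast; ring
      · rw [abs_of_nonneg (by positivity)]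
        nlinarith
    linarith
  · intro σ t h0 h1 ht
    have ht' := abs_le.1 ht
    have ht7 : 7 ≤ t := by linarith [ht'.1]
    have e1 : (1 / 2 - (σ : ℂ) + t * Complex.I).im = t := by simp
    have e2 : (1 / 2 + (σ : ℂ) + t * Complex.I).im = t := by simp
    have e3 : (1 / 2 - (σ : ℂ) + t * Complex.I).re = 1 / 2 - σ := by simp
    have n1 : (1 / 2 - (σ : ℂ) + t * Complex.I) ≠ 1 := ne_one_of_im (by rw [e1]; linarith)
    have n2 : (1 / 2 + (σ : ℂ) + t * Complex.I) ≠ 1 := ne_one_of_im (by rw [e2]; linarith)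
    have b1 : ‖(1 / 2 - (σ : ℂ) + t * Complex.I) - 1‖ ≤ 2 * T := by
      refine (Complex.norm_le_abs_re_add_abs_im _).trans ?_
      rw [Complex.sub_re, Complex.sub_im, e1, e3, Complex.one_re, Complex.one_im, sub_zero,
        abs_of_pos (by linarith : 0 < t), abs_of_nonpos (by linarith)]
      linarith [ht'.2]
    have b2 : T ≤ 2 * ‖(1 / 2 + (σ : ℂ) + t * Complex.I) - 1‖ := by
      have := Complex.abs_im_le_norm ((1 / 2 + (σ : ℂ) + t * Complex.I) - 1)
      rw [Complex.sub_im, e2, Complex.one_im, sub_zero, abs_of_pos (by linarith : 0 < t)] at this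
      linarith [ht'.1]
    have g1 := FT_le hT0 (by norm_num : (1:ℝ) ≤ 2) n1 b1
    have g2 := le_FT hT0 (by norm_num : (1:ℝ) ≤ 2) n2 b2
    have g3 := hz σ t h0 h1 (by linarith)
    have g4 : Real.log t ≤ Real.log T + 1 * Real.log 2 := by
      have h5 := Real.log_le_log (by linarith) (show t ≤ T * 2 by linarith [ht'.2])
      rw [Real.log_mul (by positivity) (by norm_num)] at h5
      linarith
    have g5 := mul_le_mul_of_nonneg_left g4 h0
    linarith

/-- the points of the window at which `‖ζ‖ ≤ T ^ κ` -/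
def Sz (κ T h : ℝ) : Set ℝ := {x : ℝ | |x - T| ≤ h ∧ ‖riemannZeta (1 / 2 + x * Complex.I)‖ ≤ T ^ κ}

theorem improve_zeta {θ δ η : ℝ} (hθ : Adm θ) (hδ : 0 < δ) (hδθ : δ ≤ θ) (hη : 0 < η) :
    ∃ T₀ : ℝ, 8 ≤ T₀ ∧ ∀ T : ℝ, T₀ ≤ T → ∀ h : ℝ, 0 < h → h ≤ 1 / 2 → h ≤ η * δ / (10 * π) →
      ENNReal.ofReal (η * (2 * h)) ≤ volume (Sz (θ - δ) T h) →
      ‖riemannZeta (1 / 2 + T * Complex.I)‖ ≤ T ^ (θ - η * δ / (20 * π)) := by
  have hpi := Real.pi_pos
  have hl2 := log2_pos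
  have hC0 := C0_nonneg
  set ε : ℝ := η * δ / (40 * π) with hε
  have hε0 : 0 < ε := by positivity
  obtain ⟨B, hB⟩ := hθ ε hε0
  obtain ⟨K, hK, hlz⟩ := lz
  set B₁ : ℝ := max 1 |B| with hB₁
  have hB1 : 1 ≤ B₁ := le_max_left _ _
  have hlB : 0 ≤ Real.log B₁ := Real.log_nonneg hB1
  set m' : ℝ := 1 + (θ + ε) with hm'
  have hm'0 : 0 ≤ m' := by rw [hm']; linarith
  set c₁ : ℝ := Real.log 2 + Real.log B₁ + (θ + ε) * Real.log 2 with hc₁
  set c₀ : ℝ := K + c₁ + m' * Real.log 2 + m' * C0 / (2 * π) with hc₀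
  refine ⟨max 8 (Real.exp (c₀ / ε)), le_max_left _ _, fun T hT h h0 h1 h2 hv => ?_⟩
  have hT8 : 8 ≤ T := (le_max_left _ _).trans hT
  have hT0 : 0 < T := by linarith
  set ℓ : ℝ := Real.log T with hℓ
  have hℓ2 : 1 * Real.log 2 ≤ ℓ := by
    rw [one_mul]
    exact Real.log_le_log (by norm_num) (by linarith)
  have hℓ0 : 0 ≤ ℓ := by linarith
  have hℓ3 : c₀ ≤ ε * ℓ := by
    have h3 : c₀ / ε ≤ ℓ := by
      rw [hℓ, Real.le_log_iff_exp_le hT0]; exact (le_max_right _ _).trans hT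
    rw [div_le_iff₀ hε0] at h3
    linarith
  set A : ℝ := c₁ + (θ + ε) * ℓ with hA
  have e0 : ∀ x : ℝ, (1 / 2 + (x : ℂ) * Complex.I) ≠ 1 := fun x => ne_one_of_re (by simp; norm_num)
  have b0 : ∀ x : ℝ, ‖(1 / 2 + (x : ℂ) * Complex.I) - 1‖ ≤ 1 / 2 + |x| := by
    intro x
    refine (Complex.norm_le_abs_re_add_abs_im _).trans ?_
    have e1 : ((1 / 2 + (x : ℂ) * Complex.I) - 1).re = -(1 / 2) := by simp; norm_num
    have e2 : ((1 / 2 + (x : ℂ) * Complex.I) - 1).im = x := by simp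
    rw [e1, e2, abs_neg, abs_of_pos (by norm_num : (0:ℝ) < 1 / 2)]
  have habs : ∀ x : ℝ, 1 + |x| ≤ 2 * (1 + |x - T|) * T := by
    intro x
    have h3 : |x| ≤ |x - T| + T := by
      have := abs_sub_abs_le_abs_sub x T
      rw [abs_of_pos hT0] at this
      linarith
    nlinarith [abs_nonneg (x - T)]
  have hline : ∀ x : ℝ, log⁺ ‖FT T (1 / 2 + (x : ℂ) * Complex.I)‖ ≤
      A + m' * Real.log (1 + |x - T|) := by
    intro x
    have hx0 : 0 ≤ |x - T| := abs_nonneg _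
    have g1 := FT_le hT0 (c := 2 * (1 + |x - T|)) (by linarith) (e0 x)
      ((b0 x).trans (by linarith [habs x]))
    have h3 := hB x
    have h4 : ‖riemannZeta (1 / 2 + (x : ℂ) * Complex.I)‖ ≤ B₁ * (1 + |x|) ^ (θ + ε) := by
      refine h3.trans (mul_le_mul_of_nonneg_right ?_ (by positivity))
      exact (le_abs_self B).trans (le_max_right _ _)
    have h5 := posLog_le_posLog (norm_nonneg _) h4
    have h6 : log⁺ (B₁ * (1 + |x|) ^ (θ + ε)) = Real.log B₁ + (θ + ε) * Real.log (1 + |x|) := by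
      have h7 : 1 ≤ (1 + |x|) ^ (θ + ε) := Real.one_le_rpow (by linarith [abs_nonneg x]) (by linarith)
      rw [posLog_eq_log, Real.log_mul (by positivity) (by positivity), Real.log_rpow (by positivity)]
      rw [abs_of_nonneg (by positivity)]
      nlinarith
    have h8 : Real.log (2 * (1 + |x - T|)) = Real.log 2 + Real.log (1 + |x - T|) :=
      Real.log_mul (by norm_num) (by positivity)
    have h9 : Real.log (1 + |x|) ≤ Real.log 2 + Real.log (1 + |x - T|) + ℓ := by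
      have h10 := Real.log_le_log (by positivity) (habs x)
      rw [Real.log_mul (by positivity) hT0.ne', h8] at h10
      exact h10
    have h10 := mul_le_mul_of_nonneg_left h9 (by linarith : 0 ≤ θ + ε)
    rw [hA, hm', hc₁]
    linarith
  set E := Sz (θ - δ) T h with hE
  have hEm : MeasurableSet E := by
    have e : E = {x : ℝ | |x - T| ≤ h} ∩
        {x : ℝ | ‖riemannZeta (1 / 2 + (x : ℂ) * Complex.I)‖ ≤ T ^ (θ - δ)} := rfl
    rw [e]
    have hc1 : Measurable fun x : ℝ => |x - T| := by fun_prop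
    exact (measurableSet_le hc1 measurable_const).inter
      (measurableSet_le zeta_line_cont.norm.measurable measurable_const)
  have hκ : ∀ x ∈ E, log⁺ ‖FT T (1 / 2 + (x : ℂ) * Complex.I)‖ ≤ Real.log 2 + (θ - δ) * ℓ := by
    intro x hx
    have hxT : |x| ≤ T + 1 / 2 := by
      have := abs_sub_abs_le_abs_sub x T
      rw [abs_of_pos hT0] at this
      have := hx.1
      linarith
    have g1 := FT_le hT0 (by norm_num : (1:ℝ) ≤ 2) (e0 x) ((b0 x).trans (by linarith))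
    have h4 := posLog_le_posLog (norm_nonneg _) hx.2
    have h5 : log⁺ (T ^ (θ - δ)) = (θ - δ) * ℓ := by
      rw [posLog_eq_log, Real.log_rpow hT0]
      rw [abs_of_nonneg (by positivity)]
      exact Real.one_le_rpow (by linarith) (by linarith)
    linarith
  have hεℓ : 0 ≤ ε * ℓ := by positivity
  have hδℓ : 0 ≤ δ * ℓ := by positivity
  have hθε : 0 ≤ (θ + ε) * Real.log 2 := by
    have : 0 ≤ θ + ε := by linarith
    positivity
  have hD : δ * ℓ ≤ A - (Real.log 2 + (θ - δ) * ℓ) := by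
    rw [hA, hc₁]
    linarith [show (θ + ε) * ℓ - (θ - δ) * ℓ = ε * ℓ + δ * ℓ by ring]
  have hEfin : volume E ≠ ⊤ := by
    have : E ⊆ Icc (T - h) (T + h) := by
      rintro x ⟨hx, _⟩
      have := abs_le.1 hx
      constructor <;> linarith [this.1, this.2]
    refine ne_top_of_le_ne_top ?_ (measure_mono this)
    rw [Real.volume_Icc]
    exact ENNReal.ofReal_ne_top
  have he : η * (2 * h) ≤ (volume E).toReal := by
    have := ENNReal.toReal_mono hEfin hv
    rwa [ENNReal.toReal_ofReal (by positivity)] at this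
  set D : ℝ := A - (Real.log 2 + (θ - δ) * ℓ) with hDd
  have hBr : ℓ + 1 * Real.log 2 - D * (volume E).toReal / (5 * π * h ^ 2) ≤
      -(η * δ * ℓ / (5 * π * h)) := by
    have g1 : δ * ℓ * (η * (2 * h)) ≤ D * (volume E).toReal :=
      mul_le_mul hD he (by positivity) (by linarith)
    have g2 : δ * ℓ * (η * (2 * h)) / (5 * π * h ^ 2) ≤ D * (volume E).toReal / (5 * π * h ^ 2) :=
      div_le_div_of_nonneg_right g1 (by positivity)
    have g3 : δ * ℓ * (η * (2 * h)) / (5 * π * h ^ 2) = 2 * (η * δ * ℓ / (5 * π * h)) := by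
      field_simp
    have g4 : 2 * ℓ ≤ η * δ * ℓ / (5 * π * h) := by
      rw [le_div_iff₀ (by positivity)]
      have g5 : h * (10 * π) ≤ η * δ := by
        rwa [le_div_iff₀ (by positivity)] at h2
      have g6 := mul_le_mul_of_nonneg_right g5 hℓ0
      linarith [show 2 * ℓ * (5 * π * h) = h * (10 * π) * ℓ by ring]
    linarith
  have hneg : 0 ≤ η * δ * ℓ / (5 * π * h) := by positivity
  have hfin := local2 (hlz T hT8) hm'0 hline hEm (fun x hx => hx.1) hκ (by linarith) h0 h1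
    (by linarith)
  have g7 : h / 2 * (ℓ + 1 * Real.log 2 - D * (volume E).toReal / (5 * π * h ^ 2)) ≤
      -(4 * ε * ℓ) := by
    have g8 := mul_le_mul_of_nonneg_left hBr (by linarith : 0 ≤ h / 2)
    have g9 : h / 2 * -(η * δ * ℓ / (5 * π * h)) = -(4 * ε * ℓ) := by
      rw [hε]
      field_simp
      ring
    linarith
  have g10 : log⁺ ‖riemannZeta (1 / 2 + T * Complex.I)‖ ≤ (θ - 2 * ε) * ℓ := by
    have b2 : T ≤ 1 * ‖(1 / 2 + (T : ℂ) * Complex.I) - 1‖ := by
      have := Complex.abs_im_le_norm ((1 / 2 + (T : ℂ) * Complex.I) - 1)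
      have e2 : ((1 / 2 + (T : ℂ) * Complex.I) - 1).im = T := by simp
      rw [e2, abs_of_pos hT0] at this
      linarith
    have g2 := le_FT hT0 le_rfl (e0 T) b2
    rw [Real.log_one, zero_add] at g2
    refine g2.trans ?_
    have e : (θ - 2 * ε) * ℓ = (θ + ε) * ℓ - 4 * ε * ℓ + ε * ℓ := by ring
    rw [e]
    rw [hc₀] at hℓ3
    have g11 : log⁺ ‖FT T (1 / 2 + T * Complex.I)‖ ≤ K + (A + m' * Real.log 2 +
      m' * C0 / (2 * π)) + h / 2 * (ℓ + 1 * Real.log 2 - D * (volume E).toReal /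
        (5 * π * h ^ 2)) := hfin
    rw [hA] at g11
    linarith
  have e2 : θ - η * δ / (20 * π) = θ - 2 * ε := by
    rw [hε]; field_simp; ring
  rw [e2]
  rcases eq_or_lt_of_le (norm_nonneg (riemannZeta (1 / 2 + T * Complex.I))) with h3 | h3
  · rw [← h3]; positivity
  · have e3 : T ^ (θ - 2 * ε) = Real.exp ((θ - 2 * ε) * ℓ) := by
      rw [Real.rpow_def_of_pos hT0]
      congr 1
      ring
    rw [e3, ← Real.log_le_iff_le_exp h3]
    exact (le_max_right _ _).trans g10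

end Pool.Agent.H983R4.GL.Z
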