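import Pool.Agent.H983R4.GL.Z2

set_option autoImplicit false
open MeasureTheory Filter Topology Set Real

namespace Pool.Agent.H983R4.GL.Z

open Pool.Agent.H983R4.LH Pool.Agent.H983R4.GL

/-- `‖ζ‖ ≤ T ^ κ` on a proportion `η` of one window of radius at most `ρ` around every large `T` -/
def SomeZ (κ η ρ : ℝ) : Prop := ∃ T₀ : ℝ, ∀ T : ℝ, T₀ ≤ T → ∃ h : ℝ, 0 < h ∧ h ≤ 1 / 2 ∧ h ≤ ρ ∧
  ENNReal.ofReal (η * (2 * h)) ≤ volume (Sz κ T h)

theorem adm_three : Adm 3 := by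
  intro ε hε
  refine lh_of (T₁ := 36) (by linarith) fun T hT => ?_
  have hre : (1 / 2 + (T : ℂ) * Complex.I).re = 1 / 2 := by simp
  have h1 : 1 ≤ ‖(1 / 2 + (T : ℂ) * Complex.I) - 1‖ := by
    have := Complex.abs_im_le_norm ((1 / 2 + (T : ℂ) * Complex.I) - 1)
    have e2 : ((1 / 2 + (T : ℂ) * Complex.I) - 1).im = T := by simp
    rw [e2, abs_of_pos (by linarith)] at this
    linarith
  have h2 := zeta_le_G (s := 1 / 2 + (T : ℂ) * Complex.I) (by rw [hre]; norm_num) h1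
  have h3 := G_norm_le (s := 1 / 2 + (T : ℂ) * Complex.I) (by rw [hre])
  have h4 : ‖(1 / 2 + (T : ℂ) * Complex.I)‖ ≤ 1 / 2 + T := by
    refine (norm_add_le _ _).trans ?_
    rw [norm_mul, Complex.norm_I, mul_one, Complex.norm_real, Real.norm_eq_abs,
      abs_of_pos (by linarith)]
    simp
  have h5 : (‖(1 / 2 + (T : ℂ) * Complex.I)‖ + 1) ^ 2 ≤ (2 * (1 + T)) ^ 2 := by
    have := norm_nonneg (1 / 2 + (T : ℂ) * Complex.I)
    gcongr
    linarith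
  have h7 : (1 + T) ^ (3 : ℝ) = (1 + T) ^ 3 := by
    rw [← Real.rpow_natCast]; norm_num
  have h6 : ‖riemannZeta (1 / 2 + T * Complex.I)‖ ≤ 36 * (1 + T) ^ 2 := by nlinarith
  have h12 : (1 + T) ^ (3 : ℝ) ≤ (1 + T) ^ (3 + ε) :=
    Real.rpow_le_rpow_of_exponent_le (by linarith) (by linarith)
  rw [h7] at h12
  have h8 : 36 * (1 + T) ^ 2 ≤ (1 + T) ^ 3 := by nlinarith [sq_nonneg (1 + T)]
  exact h6.trans (h8.trans h12)

theorem stepZ {θ δ η : ℝ} (hθ : Adm θ) (hδ : 0 < δ) (hδθ : δ ≤ θ) (hη : 0 < η) (hη1 : η ≤ 1)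
    (h : SomeZ (θ - δ) η (η * δ / (10 * π))) : Adm (θ - η * δ / (20 * π)) := by
  have hpi3 := Real.pi_gt_three
  obtain ⟨T₀, h⟩ := h
  obtain ⟨T₁, hT₁, hi⟩ := improve_zeta hθ hδ hδθ hη
  have hd4 : η * δ / (20 * π) ≤ θ := by
    rw [div_le_iff₀ (by positivity)]
    nlinarith
  intro ε hε
  refine lh_of (T₁ := max T₀ T₁) (by linarith) fun T hT => ?_
  have hTa : T₀ ≤ T := (le_max_left _ _).trans hT
  have hTb : T₁ ≤ T := (le_max_right _ _).trans hT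
  obtain ⟨w, a, b, c, d⟩ := h T hTa
  have h1 := hi T hTb w a b c d
  calc ‖riemannZeta (1 / 2 + T * Complex.I)‖ ≤ T ^ (θ - η * δ / (20 * π)) := h1
    _ ≤ (1 + T) ^ (θ - η * δ / (20 * π)) :=
        Real.rpow_le_rpow (by linarith) (by linarith) (by linarith)
    _ ≤ (1 + T) ^ (θ - η * δ / (20 * π) + ε) :=
        Real.rpow_le_rpow_of_exponent_le (by linarith) (by linarith)

theorem leastZ : ∃ θ : ℝ, 0 ≤ θ ∧ Adm θ ∧ ∀ θ' : ℝ, 0 ≤ θ' → Adm θ' → θ ≤ θ' := by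
  set S : Set ℝ := {θ : ℝ | 0 ≤ θ ∧ Adm θ} with hS
  have hne : S.Nonempty := ⟨3, by norm_num, adm_three⟩
  have hbd : BddBelow S := ⟨0, fun θ h => h.1⟩
  refine ⟨sInf S, le_csInf hne fun θ h => h.1, fun ε hε => ?_, fun θ' h0 h => csInf_le hbd ⟨h0, h⟩⟩
  obtain ⟨θ, hθ, hlt⟩ := exists_lt_of_csInf_lt hne (show sInf S < sInf S + ε / 2 by linarith)
  obtain ⟨B, hB⟩ := hθ.2 (ε / 2) (by linarith)
  refine ⟨|B|, fun t => ?_⟩
  have h0 := abs_nonneg t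
  calc ‖riemannZeta (1 / 2 + t * Complex.I)‖ ≤ B * (1 + |t|) ^ (θ + ε / 2) := hB t
    _ ≤ |B| * (1 + |t|) ^ (θ + ε / 2) :=
        mul_le_mul_of_nonneg_right (le_abs_self B) (by positivity)
    _ ≤ |B| * (1 + |t|) ^ (sInf S + ε) :=
        mul_le_mul_of_nonneg_left (Real.rpow_le_rpow_of_exponent_le (by linarith) (by linarith))
          (abs_nonneg B)

theorem spreadZ {θ : ℝ} (hθ : Adm θ) (hmin : ∀ θ' : ℝ, 0 ≤ θ' → Adm θ' → θ ≤ θ') {δ η : ℝ}
    (hδ : 0 < δ) (hδθ : δ ≤ θ) (hη : 0 < η) (hη1 : η ≤ 1) :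
    ¬ SomeZ (θ - δ) η (η * δ / (10 * π)) := by
  have hpi3 := Real.pi_gt_three
  intro h
  have h1 := stepZ hθ hδ hδθ hη hη1 h
  have hd4 : η * δ / (20 * π) ≤ θ := by
    rw [div_le_iff₀ (by positivity)]
    nlinarith
  have h2 := hmin _ (by linarith) h1
  have h3 : 0 < η * δ / (20 * π) := by positivity
  linarith

theorem lindZ_iff : Adm 0 ↔
    ∀ ε : ℝ, 0 < ε → ∃ η : ℝ, 0 < η ∧ η ≤ 1 ∧ SomeZ ε η (η * ε / (10 * π)) := by
  constructor
  · intro h ε hε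
    obtain ⟨T₀, hT₀⟩ := eventually_atTop.1 (Ex_empty le_rfl h hε)
    refine ⟨1, one_pos, le_rfl, T₀, fun T hT => ?_⟩
    have hpi3 := Real.pi_gt_three
    set w : ℝ := min (1 / 2) (1 * ε / (10 * π)) with hw
    have hw0 : 0 < w := lt_min (by norm_num) (by positivity)
    have hw1 : w ≤ 1 / 2 := min_le_left _ _
    refine ⟨w, hw0, hw1, min_le_right _ _, ?_⟩
    have hE := hT₀ T hT w (by linarith)
    rw [zero_add] at hE
    have hsub : Icc (T - w) (T + w) ⊆ Sz ε T w := by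
      rintro x ⟨hx1, hx2⟩
      have hx : |x - T| ≤ w := by rw [abs_le]; constructor <;> linarith
      refine ⟨hx, ?_⟩
      by_contra hcon
      push Not at hcon
      have : x ∈ Ex ε T w := ⟨hx, hcon⟩
      rw [hE] at this
      exact this
    refine le_trans (le_of_eq ?_) (measure_mono hsub)
    rw [Real.volume_Icc]
    congr 1
    ring
  · intro h
    obtain ⟨θ, hθ0, hθ, hmin⟩ := leastZ
    rcases eq_or_lt_of_le hθ0 with h0 | h0
    · rw [h0]; exact hθ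
    · exfalso
      obtain ⟨η, hη, hη1, hs⟩ := h (θ / 2) (by linarith)
      refine spreadZ hθ hmin (δ := θ / 2) (by linarith) (by linarith) hη hη1 ?_
      rw [show θ - θ / 2 = θ / 2 by ring]
      exact hs

end Pool.Agent.H983R4.GL.Z
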